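import Pool.Agent.Q243.PR.Sel

/-!
# Curves over `ℚ` whose cubic has distinct roots: division by two, Mordell-Weil, the 2-Selmer group
-/

set_option autoImplicit false

namespace Pool.Agent.Q243.PR

open WeierstrassCurve Pool.Agent.TH841.SH.D

open Pool.Agent.TH841.SH (IsR)

open Pool.Agent.H437R2.Man.MW (crv pt_fg)

attribute [-instance] DivisionRing.toRatAlgebra

variable {W : WeierstrassCurve ℚ} {a b c : QB}

/-- division by two -/
lemma hdiv (h : IsR (W.baseChange QB) a b c) (hab : a ≠ b) (hac : a ≠ c) (hbc : b ≠ c)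
    (P : Pt W QB) : ∃ Q, P = Q + Q := by
  classical
  obtain ⟨Q, hQ⟩ := h.div two_ne_zero hab hac hbc P
  exact ⟨Q, hQ⟩

/-- at most four points of order dividing two -/
lemma two_le (h : IsR (W.baseChange QB) a b c) (hab : a ≠ b) (hac : a ≠ c) (hbc : b ≠ c) :
    Finite {x : W.toAffine.Point // x + x = 0} ∧
      Nat.card {x : W.toAffine.Point // x + x = 0} ≤ 4 := by
  classical
  obtain ⟨j, hj, -, -⟩ := exists_rat W
  have h2 : (2 : QB) ≠ 0 := two_ne_zero
  have ha : (W.baseChange QB).toAffine.Nonsingular a 0 := h.nons h2 hab hac hbc (by ring)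
  have hb : (W.baseChange QB).toAffine.Nonsingular b 0 := h.nons h2 hab hac hbc (by ring)
  have hc : (W.baseChange QB).toAffine.Nonsingular c 0 := h.nons h2 hab hac hbc (by ring)
  let T : Fin 4 → Pt W QB := ![0, Affine.Point.some _ _ ha, Affine.Point.some _ _ hb,
    Affine.Point.some _ _ hc]
  have hT : ∀ x : {x : W.toAffine.Point // x + x = 0}, ∃ i, T i = j x.1 := by
    intro x
    have hx : j x.1 + j x.1 = 0 := by rw [← map_add, x.2, map_zero]
    rcases h.tors h2 hx with h1 | ⟨_, h1⟩ | ⟨_, h1⟩ | ⟨_, h1⟩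
    · exact ⟨0, h1.symm⟩
    · exact ⟨1, h1.symm⟩
    · exact ⟨2, h1.symm⟩
    · exact ⟨3, h1.symm⟩
  choose f hf using hT
  have hinj : Function.Injective f := by
    intro x y hxy
    apply Subtype.ext
    apply hj
    rw [← hf, ← hf, hxy]
  refine ⟨Finite.of_injective f hinj, ?_⟩
  have := Nat.card_le_card_of_injective f hinj
  rwa [Nat.card_fin] at this

/-- **Mordell-Weil.** -/
lemma fg_of (h : IsR (W.baseChange QB) a b c) (hab : a ≠ b) (hac : a ≠ c) (hbc : b ≠ c) :
    AddGroup.FG W.toAffine.Point := by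
  classical
  let K : IntermediateField ℚ QB := IntermediateField.adjoin ℚ {a, b, c}
  have hfin : FiniteDimensional ℚ K := by
    refine IntermediateField.finiteDimensional_adjoin fun x _ => ?_
    exact Algebra.IsIntegral.isIntegral x
  have hNF : NumberField K := by
    refine { to_charZero := inferInstance, to_finiteDimensional := ?_ }
    convert hfin
  have haK : a ∈ K := IntermediateField.subset_adjoin ℚ _ (by simp)
  have hbK : b ∈ K := IntermediateField.subset_adjoin ℚ _ (by simp)
  have hcK : c ∈ K := IntermediateField.subset_adjoin ℚ _ (by simp)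
  have hV : W.baseChange K = crv (-(⟨a, haK⟩ : K)) (-(⟨b, hbK⟩ : K)) (-(⟨c, hcK⟩ : K)) := by
    apply WeierstrassCurve.ext
    · apply Subtype.ext
      exact h.h1
    · apply Subtype.ext
      refine h.h2.trans ?_
      change _ = -a + -b + -c
      ring
    · apply Subtype.ext
      exact h.h3
    · apply Subtype.ext
      refine h.h4.trans ?_
      change _ = -a * -b + -a * -c + -b * -c
      ring
    · apply Subtype.ext
      refine h.h6.trans ?_
      change _ = -a * -b * -c
      ring
  have h1 : AddGroup.FG (W.baseChange K).toAffine.Point := by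
    rw [hV]
    exact pt_fg (fun e => hab (congrArg Subtype.val (neg_injective e)))
      (fun e => hac (congrArg Subtype.val (neg_injective e)))
      (fun e => hbc (congrArg Subtype.val (neg_injective e)))
  suffices H : ∀ W' : WeierstrassCurve ℚ, W' = W.baseChange ℚ → AddGroup.FG W'.toAffine.Point by
    apply H W
    apply WeierstrassCurve.ext <;> simp [WeierstrassCurve.baseChange]
  rintro W' rfl
  let f : (W.baseChange ℚ).toAffine.Point →+ (W.baseChange K).toAffine.Point :=
    Affine.Point.map (Algebra.ofId ℚ K)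
  have hf : Function.Injective f := Affine.Point.map_injective _
  have h2 : Module.Finite ℤ (W.baseChange K).toAffine.Point := Module.Finite.iff_addGroup_fg.2 h1
  rw [← Module.Finite.iff_addGroup_fg]
  exact Module.Finite.of_injective f.toIntLinearMap hf

/-- **The order of the 2-Selmer group.** -/
theorem card_sel' (h : IsR (W.baseChange QB) a b c) (hab : a ≠ b) (hac : a ≠ c) (hbc : b ≠ c)
    (hS : Finite (ShaTor W 2)) :
    Finite (Sel2 W) ∧ ∃ t : ℕ, 1 ≤ t ∧ t ≤ 4 ∧
      Nat.card (Sel2 W) = 2 ^ rk W * t * Nat.card (ShaTor W 2) := by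
  obtain ⟨h1, h2⟩ := two_le h hab hac hbc
  obtain ⟨h3, h4⟩ := card_sel (hdiv h hab hac hbc) (fg_of h hab hac hbc)
  have : Nonempty {x : W.toAffine.Point // x + x = 0} := ⟨⟨0, add_zero 0⟩⟩
  exact ⟨h3, _, Nat.card_pos, h2, h4⟩

end Pool.Agent.Q243.PR
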