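import Mathlib

/-!
# Euler's product identity `∏ (1 - q^{2i+1}) = 2 ∏ (1 + q^j)⁻¹` for `0 < q ≤ 1 / 2`
-/

set_option autoImplicit false

namespace Pool.Agent.Q243.PR3

open Filter Topology Finset

/-- a finite form of Euler's identity -/
lemma fin_euler (q : ℝ) (N : ℕ) :
    (∏ j ∈ range N, (1 + q ^ (j + 1))) * (∏ j ∈ range N, (1 - q ^ (j + 1))) *
      ∏ i ∈ range N, (1 - q ^ (2 * i + 1)) = ∏ j ∈ range (2 * N), (1 - q ^ (j + 1)) := by
  induction N with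
  | zero => simp
  | succ N ih =>
    rw [show 2 * (N + 1) = 2 * N + 1 + 1 by ring, prod_range_succ _ (2 * N + 1),
      prod_range_succ _ (2 * N), ← ih, prod_range_succ _ N, prod_range_succ _ N,
      prod_range_succ _ N]
    have e : (1 + q ^ (N + 1)) * (1 - q ^ (N + 1)) = 1 - q ^ (2 * N + 1 + 1) := by ring
    rw [← e]
    ring

lemma tail_half (N : ℕ) (M : ℕ) : 1 - (1 / 2 : ℝ) ^ N + (1 / 2 : ℝ) ^ (N + M) ≤
    ∏ j ∈ Ico N (N + M), (1 - (1 / 2 : ℝ) ^ (j + 1)) := by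
  induction M with
  | zero => simp
  | succ M ih =>
    rw [show N + (M + 1) = N + M + 1 by ring, prod_Ico_succ_top (by omega)]
    have h1 : (0 : ℝ) ≤ 1 - (1 / 2 : ℝ) ^ (N + M + 1) := by
      have : (1 / 2 : ℝ) ^ (N + M + 1) ≤ 1 := pow_le_one₀ (by norm_num) (by norm_num)
      linarith
    have h2 := mul_le_mul_of_nonneg_right ih h1
    refine le_trans ?_ h2
    have e1 : (1 / 2 : ℝ) ^ (N + M) = 2 * (1 / 2 : ℝ) ^ (N + M + 1) := by
      rw [pow_succ]; ring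
    have h3 : (0 : ℝ) ≤ (1 / 2 : ℝ) ^ (N + M + 1) := by positivity
    have h4 : (1 / 2 : ℝ) ^ (N + M) ≤ (1 / 2 : ℝ) ^ N :=
      pow_le_pow_of_le_one (by norm_num) (by norm_num) (by omega)
    rw [e1]
    set x := (1 / 2 : ℝ) ^ (N + M + 1)
    set y := (1 / 2 : ℝ) ^ N
    nlinarith

variable {q : ℝ}

lemma tail_le (h0 : 0 < q) (h1 : q ≤ 1 / 2) (N : ℕ) : 1 - (1 / 2 : ℝ) ^ N ≤
    ∏ j ∈ Ico N (N + N), (1 - q ^ (j + 1)) := by
  have h2 := tail_half N N
  have h3 : (0 : ℝ) ≤ (1 / 2 : ℝ) ^ (N + N) := by positivity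
  refine le_trans (by linarith) (h2.trans (prod_le_prod (fun j _ => ?_) (fun j _ => ?_)))
  · have : (1 / 2 : ℝ) ^ (j + 1) ≤ 1 := pow_le_one₀ (by norm_num) (by norm_num)
    linarith
  · have : q ^ (j + 1) ≤ (1 / 2 : ℝ) ^ (j + 1) := pow_le_pow_left₀ h0.le h1 _
    linarith

lemma mult_R (h0 : 0 < q) (h1 : q ≤ 1 / 2) :
    Multipliable (fun i : ℕ => (1 : ℝ) - q ^ (2 * i + 1)) := by
  have : Summable (fun i : ℕ => ‖-q ^ (2 * i + 1)‖) := by
    have h : Summable (fun i : ℕ => (1 / 2 : ℝ) ^ i) := summable_geometric_two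
    refine Summable.of_nonneg_of_le (fun i => norm_nonneg _) (fun i => ?_) h
    rw [norm_neg, Real.norm_of_nonneg (by positivity)]
    calc q ^ (2 * i + 1) ≤ (1 / 2 : ℝ) ^ (2 * i + 1) := pow_le_pow_left₀ h0.le h1 _
      _ ≤ (1 / 2 : ℝ) ^ i := pow_le_pow_of_le_one (by norm_num) (by norm_num) (by omega)
  have h := multipliable_one_add_of_summable this
  simpa [sub_eq_add_neg] using h

lemma mult_P (h0 : 0 < q) (h1 : q ≤ 1 / 2) : Multipliable (fun j : ℕ => (1 + q ^ j)⁻¹) := by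
  have : Summable (fun j : ℕ => ‖(1 + q ^ j)⁻¹ - 1‖) := by
    have h : Summable (fun i : ℕ => (1 / 2 : ℝ) ^ i) := summable_geometric_two
    refine Summable.of_nonneg_of_le (fun i => norm_nonneg _) (fun i => ?_) h
    have h2 : (0 : ℝ) < q ^ i := by positivity
    have h3 : q ^ i ≤ (1 / 2 : ℝ) ^ i := pow_le_pow_left₀ h0.le h1 _
    have e : (1 + q ^ i)⁻¹ - 1 = -(q ^ i / (1 + q ^ i)) := by
      field_simp
      ring
    rw [e, norm_neg, Real.norm_of_nonneg (by positivity)]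
    rw [div_le_iff₀ (by positivity)]
    nlinarith
  have h := multipliable_one_add_of_summable this
  simpa using h

/-- Euler's identity -/
theorem euler (h0 : 0 < q) (h1 : q ≤ 1 / 2) : ∏' i : ℕ, ((1 : ℝ) - q ^ (2 * i + 1)) =
    2 * ∏' j : ℕ, (1 + q ^ j)⁻¹ := by
  have hq1 : q < 1 := by linarith
  have hR := (mult_R h0 h1).hasProd.tendsto_prod_nat
  have hP := ((mult_P h0 h1).hasProd.tendsto_prod_nat).comp (tendsto_add_atTop_nat 1)
  have hT : Tendsto (fun N : ℕ => ∏ j ∈ Ico N (N + N), (1 - q ^ (j + 1))) atTop (𝓝 1) := by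
    have h2 : Tendsto (fun N : ℕ => 1 - (1 / 2 : ℝ) ^ N) atTop (𝓝 (1 - 0)) :=
      tendsto_const_nhds.sub (tendsto_pow_atTop_nhds_zero_of_lt_one (by norm_num) (by norm_num))
    rw [sub_zero] at h2
    refine tendsto_of_tendsto_of_tendsto_of_le_of_le h2 tendsto_const_nhds
      (fun N => tail_le h0 h1 N) (fun N => ?_)
    refine prod_le_one (fun j _ => ?_) (fun j _ => ?_)
    · have : q ^ (j + 1) ≤ 1 := pow_le_one₀ h0.le hq1.le
      linarith
    · have : (0 : ℝ) ≤ q ^ (j + 1) := by positivity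
      linarith
  have hlim := (hP.const_mul 2).mul hT
  rw [mul_one] at hlim
  refine tendsto_nhds_unique hR (hlim.congr fun N => ?_)
  have e := fin_euler q N
  have e2 : ∏ j ∈ range (2 * N), (1 - q ^ (j + 1)) =
      (∏ j ∈ range N, (1 - q ^ (j + 1))) * ∏ j ∈ Ico N (N + N), (1 - q ^ (j + 1)) := by
    rw [prod_range_mul_prod_Ico _ (by omega), two_mul]
  have hpos : ∏ j ∈ range N, (1 - q ^ (j + 1)) ≠ 0 := by
    refine prod_ne_zero_iff.2 fun j _ => ?_
    have : q ^ (j + 1) < 1 := pow_lt_one₀ h0.le hq1 (by omega)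
    linarith
  have e3 : (∏ j ∈ range N, (1 + q ^ (j + 1))) * ∏ i ∈ range N, (1 - q ^ (2 * i + 1)) =
      ∏ j ∈ Ico N (N + N), (1 - q ^ (j + 1)) := by
    apply mul_left_cancel₀ hpos
    rw [← e2, ← e]
    ring
  have e4 : 2 * ∏ j ∈ range (N + 1), (1 + q ^ j)⁻¹ = (∏ j ∈ range N, (1 + q ^ (j + 1)))⁻¹ := by
    rw [prod_range_succ', pow_zero, prod_inv_distrib]
    norm_num
    ring
  have hpos2 : ∏ j ∈ range N, (1 + q ^ (j + 1)) ≠ 0 := by
    refine prod_ne_zero_iff.2 fun j _ => ?_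
    positivity
  change (2 * ∏ j ∈ range (N + 1), (1 + q ^ j)⁻¹) * _ = _
  rw [e4, ← e3, ← mul_assoc, inv_mul_cancel₀ hpos2, one_mul]

end Pool.Agent.Q243.PR3
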