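import Pool.Agent.Q243.PR.Crv

/-!
# The curves `y² = x (x - A) (x - B)` and their 2-isogenous curves: orders of the 2-Selmer groups
-/

set_option autoImplicit false

namespace Pool.Agent.Q243.PR

open WeierstrassCurve Pool.Agent.TH841.SH.D

open Pool.Agent.TH841.SH (IsR)

attribute [-instance] DivisionRing.toRatAlgebra

/-- `y² = x (x - A) (x - B)` -/
lemma isR_full (A B : ℤ) :
    IsR ((⟨0, -((A : ℚ) + B), 0, (A : ℚ) * B, 0⟩ : WeierstrassCurve ℚ).baseChange QB)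
      0 (A : QB) (B : QB) where
  h1 := by
    change algebraMap ℚ QB 0 = 0
    exact map_zero _
  h2 := by
    change algebraMap ℚ QB (-((A : ℚ) + B)) = _
    rw [map_neg, map_add, map_intCast, map_intCast]
    ring
  h3 := by
    change algebraMap ℚ QB 0 = 0
    exact map_zero _
  h4 := by
    change algebraMap ℚ QB ((A : ℚ) * B) = _
    rw [map_mul, map_intCast, map_intCast]
    ring
  h6 := by
    change algebraMap ℚ QB 0 = _
    rw [map_zero]
    ring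

/-- `y² = x³ + 2 (a + b) x² + (a - b)² x` -/
lemma isR_quot (a b : ℤ) {s t : QB} (hs : s ^ 2 = a) (ht : t ^ 2 = b) :
    IsR ((⟨0, 2 * ((a : ℚ) + b), 0, ((a : ℚ) - b) ^ 2, 0⟩ : WeierstrassCurve ℚ).baseChange QB)
      0 (-(s + t) ^ 2) (-(s - t) ^ 2) where
  h1 := by
    change algebraMap ℚ QB 0 = 0
    exact map_zero _
  h2 := by
    change algebraMap ℚ QB (2 * ((a : ℚ) + b)) = _
    rw [map_mul, map_add, map_intCast, map_intCast, map_ofNat, ← hs, ← ht]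
    ring
  h3 := by
    change algebraMap ℚ QB 0 = 0
    exact map_zero _
  h4 := by
    change algebraMap ℚ QB (((a : ℚ) - b) ^ 2) = _
    rw [map_pow, map_sub, map_intCast, map_intCast, ← hs, ← ht]
    ring
  h6 := by
    change algebraMap ℚ QB 0 = _
    rw [map_zero]
    ring

lemma sel_full {A B : ℤ} (hA : A ≠ 0) (hB : B ≠ 0) (hAB : A ≠ B)
    (hS : Finite (ShaTor (⟨0, -((A : ℚ) + B), 0, (A : ℚ) * B, 0⟩ : WeierstrassCurve ℚ) 2)) :
    Finite (Sel2 ⟨0, -((A : ℚ) + B), 0, (A : ℚ) * B, 0⟩) ∧ ∃ t : ℕ, 1 ≤ t ∧ t ≤ 4 ∧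
      Nat.card (Sel2 ⟨0, -((A : ℚ) + B), 0, (A : ℚ) * B, 0⟩) =
        2 ^ rk ⟨0, -((A : ℚ) + B), 0, (A : ℚ) * B, 0⟩ * t *
          Nat.card (ShaTor (⟨0, -((A : ℚ) + B), 0, (A : ℚ) * B, 0⟩ : WeierstrassCurve ℚ) 2) := by
  refine card_sel' (isR_full A B) ?_ ?_ ?_ hS
  · exact fun h => hA (by exact_mod_cast h.symm)
  · exact fun h => hB (by exact_mod_cast h.symm)
  · exact fun h => hAB (by exact_mod_cast h)

lemma sel_quot {a b : ℤ} (ha : a ≠ 0) (hb : b ≠ 0) (hab : a ≠ b)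
    (hS : Finite (ShaTor (⟨0, 2 * ((a : ℚ) + b), 0, ((a : ℚ) - b) ^ 2, 0⟩ : WeierstrassCurve ℚ) 2)) :
    Finite (Sel2 ⟨0, 2 * ((a : ℚ) + b), 0, ((a : ℚ) - b) ^ 2, 0⟩) ∧ ∃ t : ℕ, 1 ≤ t ∧ t ≤ 4 ∧
      Nat.card (Sel2 ⟨0, 2 * ((a : ℚ) + b), 0, ((a : ℚ) - b) ^ 2, 0⟩) =
        2 ^ rk ⟨0, 2 * ((a : ℚ) + b), 0, ((a : ℚ) - b) ^ 2, 0⟩ * t *
          Nat.card (ShaTor (⟨0, 2 * ((a : ℚ) + b), 0, ((a : ℚ) - b) ^ 2, 0⟩ :
            WeierstrassCurve ℚ) 2) := by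
  obtain ⟨s, hs⟩ := IsAlgClosed.exists_pow_nat_eq (a : QB) (n := 2) (by norm_num)
  obtain ⟨t, ht⟩ := IsAlgClosed.exists_pow_nat_eq (b : QB) (n := 2) (by norm_num)
  have hst : s ^ 2 ≠ t ^ 2 := by
    rw [hs, ht]
    exact fun h => hab (by exact_mod_cast h)
  have hs0 : s ≠ 0 := by
    rintro rfl
    apply ha
    have : ((a : ℤ) : QB) = 0 := by rw [← hs]; ring
    exact_mod_cast this
  have ht0 : t ≠ 0 := by
    rintro rfl
    apply hb
    have : ((b : ℤ) : QB) = 0 := by rw [← ht]; ring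
    exact_mod_cast this
  have h1 : s + t ≠ 0 := fun h => hst (by linear_combination (s - t) * h)
  have h2 : s - t ≠ 0 := fun h => hst (by linear_combination (s + t) * h)
  refine card_sel' (isR_quot a b hs ht) ?_ ?_ ?_ hS
  · exact fun h => h1 (pow_eq_zero_iff (two_ne_zero) |>.1 (neg_eq_zero.1 h.symm))
  · exact fun h => h2 (pow_eq_zero_iff (two_ne_zero) |>.1 (neg_eq_zero.1 h.symm))
  · intro h
    have h3 : 4 * (s * t) = 0 := by linear_combination -h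
    have h4 : (4 : QB) ≠ 0 := by norm_num
    rcases mul_eq_zero.1 h3 with h5 | h5
    · exact h4 h5
    · exact mul_ne_zero hs0 ht0 h5

/-- logarithms of the orders -/
lemma log_of {n r t u R : ℕ} (h : n = 2 ^ r * t * u) (ht : 1 ≤ t) (ht4 : t ≤ 4) (hu : 0 < u)
    (hr : r ≤ R) {x δ l : ℝ} (h1 : |Real.logb 2 u - x| ≤ δ / 2 * l)
    (hl : (R : ℝ) + 2 ≤ δ / 2 * l) : |Real.logb 2 n - x| ≤ δ * l := by
  have hu' : (0 : ℝ) < u := by exact_mod_cast hu
  have ht' : (1 : ℝ) ≤ t := by exact_mod_cast ht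
  have ht4' : (t : ℝ) ≤ 4 := by exact_mod_cast ht4
  have hr' : (r : ℝ) ≤ R := by exact_mod_cast hr
  have hr0 : (0 : ℝ) ≤ r := Nat.cast_nonneg r
  have e : Real.logb 2 n = r + Real.logb 2 t + Real.logb 2 u := by
    rw [h]
    push_cast
    rw [Real.logb_mul (by positivity) hu'.ne', Real.logb_mul (by positivity) (by positivity),
      Real.logb_pow, Real.logb_self_eq_one (by norm_num), mul_one]
  have h2 : 0 ≤ Real.logb 2 t := Real.logb_nonneg (by norm_num) ht'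
  have h3 : Real.logb 2 t ≤ 2 := by
    rw [Real.logb_le_iff_le_rpow (by norm_num) (by positivity)]
    refine ht4'.trans (le_of_eq ?_)
    norm_num
  rw [abs_le] at h1 ⊢
  rw [e]
  constructor <;> linarith [h1.1, h1.2]

/-- `log log X` is eventually large -/
lemma big_ll (c : ℝ) : ∃ X1 : ℕ, ∀ X : ℕ, X1 ≤ X → c ≤ Real.log (Real.log X) := by
  have h : Filter.Tendsto (fun X : ℕ => Real.log (Real.log X)) Filter.atTop Filter.atTop :=
    Real.tendsto_log_atTop.comp (Real.tendsto_log_atTop.comp tendsto_natCast_atTop_atTop)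
  obtain ⟨X1, h1⟩ := Filter.eventually_atTop.1 (h.eventually_ge_atTop c)
  exact ⟨X1, h1⟩

end Pool.Agent.Q243.PR
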