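import Pool.Agent.Q243.PR.Crv

/-!
# The `2 ^ ∞`-Selmer group of an elliptic curve over `ℚ`: orders of the subgroups killed by `2 ^ j`
-/

set_option autoImplicit false

namespace Pool.Agent.Q243.PR

open WeierstrassCurve Pool.Agent.TH841.SH.D

open Pool.Agent.TH841.SH (IsR)

attribute [-instance] DivisionRing.toRatAlgebra

lemma tor_add {A : Type} [AddCommGroup A] {x y : A} (hx : ∃ m : ℕ, (2 ^ m : ℕ) • x = 0)
    (hy : ∃ m : ℕ, (2 ^ m : ℕ) • y = 0) : ∃ m : ℕ, (2 ^ m : ℕ) • (x + y) = 0 := by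
  obtain ⟨m, hm⟩ := hx
  obtain ⟨l, hl⟩ := hy
  refine ⟨m + l, ?_⟩
  rw [smul_add, pow_add, mul_comm, mul_smul, hm, smul_zero, mul_comm, mul_smul, hl, smul_zero,
    add_zero]

lemma tor_neg {A : Type} [AddCommGroup A] {x : A} (hx : ∃ m : ℕ, (2 ^ m : ℕ) • x = 0) :
    ∃ m : ℕ, (2 ^ m : ℕ) • (-x) = 0 := by
  obtain ⟨m, hm⟩ := hx
  exact ⟨m, by rw [smul_neg, hm, neg_zero]⟩

/-- `f` is a continuous cocycle with values in the points of 2-power order whose classes in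
`H¹(ℚ_v, W)` are trivial for all the places `v` -/
def IsSelInf (W : WeierstrassCurve ℚ) (f : Coch W) : Prop :=
  IsShaCoc W f ∧ ∀ σ, ∃ m : ℕ, (2 ^ m : ℕ) • f σ = 0

/-- the group of these cocycles -/
def selInfCoc (W : WeierstrassCurve ℚ) : AddSubgroup (Coch W) where
  carrier := {f | IsSelInf W f}
  zero_mem' := ⟨sha_zero W, fun _ => ⟨0, smul_zero _⟩⟩
  add_mem' := fun ⟨a1, a2⟩ ⟨b1, b2⟩ => ⟨sha_add a1 b1, fun σ => tor_add (a2 σ) (b2 σ)⟩
  neg_mem' := fun ⟨a1, a2⟩ => ⟨sha_neg a1, fun σ => tor_neg (a2 σ)⟩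

/-- `f` is the coboundary of a point of 2-power order -/
def IsCobInf (W : WeierstrassCurve ℚ) (f : Coch W) : Prop :=
  ∃ P : Pt W (AlgebraicClosure ℚ), (∃ m : ℕ, (2 ^ m : ℕ) • P = 0) ∧
    ∀ σ : Gal ℚ, f σ = act W σ.toAlgHom P - P

/-- the group of the coboundaries of the points of 2-power order -/
def cobInf (W : WeierstrassCurve ℚ) : AddSubgroup (Coch W) where
  carrier := {f | IsCobInf W f}
  zero_mem' := ⟨0, ⟨0, smul_zero _⟩, fun σ => by
    change (0 : Pt W (AlgebraicClosure ℚ)) = act W σ.toAlgHom 0 - 0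
    rw [map_zero, sub_zero]⟩
  add_mem' := by
    rintro f g ⟨P, hP1, hP2⟩ ⟨Q, hQ1, hQ2⟩
    refine ⟨P + Q, tor_add hP1 hQ1, fun σ => ?_⟩
    change f σ + g σ = _
    rw [hP2, hQ2, map_add]
    abel
  neg_mem' := by
    rintro f ⟨P, hP1, hP2⟩
    refine ⟨-P, tor_neg hP1, fun σ => ?_⟩
    change -f σ = _
    rw [hP2, map_neg]
    abel

/-- the `2 ^ ∞`-Selmer group `ker (H¹(ℚ, W[2 ^ ∞]) → ∏ H¹(ℚ_v, W))` -/
def SelInf (W : WeierstrassCurve ℚ) : Type := selInfCoc W ⧸ (cobInf W).addSubgroupOf (selInfCoc W)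

/-- the group law -/
noncomputable instance (W : WeierstrassCurve ℚ) : AddCommGroup (SelInf W) :=
  @QuotientAddGroup.Quotient.addCommGroup (selInfCoc W) _ ((cobInf W).addSubgroupOf (selInfCoc W))

/-- the elements of the `2 ^ ∞`-Selmer group killed by `2 ^ j` -/
def SelInfTor (W : WeierstrassCurve ℚ) (j : ℕ) : Type := {x : SelInf W // 2 ^ j • x = 0}

/-- the class of a cocycle -/
noncomputable def icl (W : WeierstrassCurve ℚ) : selInfCoc W →+ SelInf W :=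
  QuotientAddGroup.mk' ((cobInf W).addSubgroupOf (selInfCoc W))

lemma icl_surj {W : WeierstrassCurve ℚ} (x : SelInf W) : ∃ c, icl W c = x :=
  QuotientAddGroup.mk'_surjective _ x

lemma icl_zero_iff {W : WeierstrassCurve ℚ} (c : selInfCoc W) : icl W c = 0 ↔ IsCobInf W c.1 := by
  have h1 : icl W c = 0 ↔ c ∈ (QuotientAddGroup.mk' ((cobInf W).addSubgroupOf (selInfCoc W))).ker :=
    Iff.rfl
  rw [h1, QuotientAddGroup.ker_mk', AddSubgroup.mem_addSubgroupOf]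
  rfl

/-- the inclusion of the cocycles -/
def inclInf (W : WeierstrassCurve ℚ) : selInfCoc W →+ shaCoc W where
  toFun c := ⟨c.1, c.2.1⟩
  map_zero' := rfl
  map_add' _ _ := rfl

/-- the map to the Tate-Shafarevich group -/
noncomputable def infSha (W : WeierstrassCurve ℚ) : SelInf W →+ Sha W :=
  QuotientAddGroup.map ((cobInf W).addSubgroupOf (selInfCoc W)) ((cob W).addSubgroupOf (shaCoc W))
    (inclInf W) (by
      rintro c ⟨P, -, hP2⟩
      exact ⟨P, hP2⟩)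

lemma infSha_icl {W : WeierstrassCurve ℚ} (c : selInfCoc W) :
    infSha W (icl W c) = tcl W (inclInf W c) := rfl

lemma dd_add (W : WeierstrassCurve ℚ) (P Q : Pt W QB) : dd W (P + Q) = dd W P + dd W Q := by
  funext σ
  change act W σ.toAlgHom (P + Q) - (P + Q) =
    (act W σ.toAlgHom P - P) + (act W σ.toAlgHom Q - Q)
  rw [map_add]
  abel

lemma dd_sub (W : WeierstrassCurve ℚ) (P Q : Pt W QB) : dd W (P - Q) = dd W P - dd W Q := by
  funext σ
  change act W σ.toAlgHom (P - Q) - (P - Q) =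
    (act W σ.toAlgHom P - P) - (act W σ.toAlgHom Q - Q)
  rw [map_sub]
  abel

lemma dd_nsmul (W : WeierstrassCurve ℚ) (n : ℕ) (P : Pt W QB) (σ : Gal ℚ) :
    dd W (n • P) σ = n • dd W P σ := by
  change act W σ.toAlgHom (n • P) - n • P = n • (act W σ.toAlgHom P - P)
  rw [map_nsmul, smul_sub]

lemma div_pow {W : WeierstrassCurve ℚ} (hdiv : ∀ P : Pt W QB, ∃ Q, P = Q + Q) (j : ℕ)
    (P : Pt W QB) : ∃ Q : Pt W QB, 2 ^ j • Q = P := by
  induction j generalizing P with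
  | zero => exact ⟨P, by rw [pow_zero, one_smul]⟩
  | succ j ih =>
    obtain ⟨P', rfl⟩ := hdiv P
    obtain ⟨Q, rfl⟩ := ih P'
    exact ⟨Q, by rw [pow_succ, mul_comm, mul_smul, two_nsmul]⟩

/-- every element of `Ш` killed by `2 ^ j` comes from an element killed by `2 ^ j` -/
lemma lift_sha {W : WeierstrassCurve ℚ} (hdiv : ∀ P : Pt W QB, ∃ Q, P = Q + Q) (j : ℕ)
    (y : Sha W) (hy : 2 ^ j • y = 0) : ∃ x : SelInf W, 2 ^ j • x = 0 ∧ infSha W x = y := by
  obtain ⟨c, rfl⟩ := tcl_surj y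
  rw [← map_nsmul, tcl_zero_iff] at hy
  obtain ⟨P, hP⟩ := hy
  obtain ⟨Q, rfl⟩ := div_pow hdiv j P
  have hP' : ∀ σ : Gal ℚ, 2 ^ j • c.1 σ = dd W (2 ^ j • Q) σ := hP
  have h0 : ∀ σ : Gal ℚ, 2 ^ j • (c.1 - dd W Q) σ = 0 := by
    intro σ
    change 2 ^ j • (c.1 σ - dd W Q σ) = 0
    rw [smul_sub, hP', dd_nsmul, sub_self]
  have h2 : IsSelInf W (c.1 - dd W Q) :=
    ⟨(shaCoc W).sub_mem c.2 (cob_mem W Q), fun σ => ⟨j, h0 σ⟩⟩
  refine ⟨icl W ⟨_, h2⟩, ?_, ?_⟩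
  · rw [← map_nsmul]
    have : (2 ^ j • (⟨_, h2⟩ : selInfCoc W)) = 0 := Subtype.ext (funext fun σ => h0 σ)
    rw [this, map_zero]
  · rw [infSha_icl]
    have h5 : tcl W (inclInf W ⟨_, h2⟩ - c) = 0 := by
      rw [tcl_zero_iff]
      refine ⟨-Q, fun σ => ?_⟩
      change (c.1 σ - (act W σ.toAlgHom Q - Q)) - c.1 σ = _
      rw [map_neg]
      abel
    rw [map_sub, sub_eq_zero] at h5
    exact h5

/-- coboundaries whose values have 2-power order -/
lemma dd_mem {W : WeierstrassCurve ℚ} {j : ℕ} {Q : Pt W QB} {g : W.toAffine.Point}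
    {ι : W.toAffine.Point →+ Pt W QB} (hι : ∀ (σ : Gal ℚ) (P : W.toAffine.Point),
      act W σ.toAlgHom (ι P) = ι P) (h : 2 ^ j • Q = ι g) : IsSelInf W (dd W Q) := by
  refine ⟨cob_mem W Q, fun σ => ⟨j, ?_⟩⟩
  rw [← dd_nsmul, h]
  change act W σ.toAlgHom (ι g) - ι g = 0
  rw [hι, sub_self]

/-- the kernel of the map to `Ш`, on the elements killed by `2 ^ j` -/
lemma ker_sha {W : WeierstrassCurve ℚ} (hdiv : ∀ P : Pt W QB, ∃ Q, P = Q + Q) (j : ℕ)
    {ι : W.toAffine.Point →+ Pt W QB} (hι : ∀ (σ : Gal ℚ) (P : W.toAffine.Point),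
      act W σ.toAlgHom (ι P) = ι P)
    (hf : ∀ P : Pt W QB, (∀ σ : Gal ℚ, act W σ.toAlgHom P = P) → ∃ q, ι q = P)
    (x : SelInf W) (hx : 2 ^ j • x = 0) (h0 : infSha W x = 0) :
    ∃ (g : W.toAffine.Point) (Q : Pt W QB) (h : 2 ^ j • Q = ι g),
      x = icl W ⟨dd W Q, dd_mem hι h⟩ := by
  obtain ⟨c, rfl⟩ := icl_surj x
  rw [infSha_icl, tcl_zero_iff] at h0
  obtain ⟨P, hP⟩ := h0
  have hP' : ∀ σ : Gal ℚ, c.1 σ = dd W P σ := hP
  rw [← map_nsmul, icl_zero_iff] at hx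
  obtain ⟨T, ⟨m, hm⟩, hT⟩ := hx
  have hT' : ∀ σ : Gal ℚ, 2 ^ j • c.1 σ = dd W T σ := hT
  have hfix : ∀ σ : Gal ℚ, act W σ.toAlgHom (2 ^ j • P - T) = 2 ^ j • P - T := by
    intro σ
    rw [← sub_eq_zero]
    change dd W (2 ^ j • P - T) σ = 0
    rw [dd_sub]
    change dd W (2 ^ j • P) σ - dd W T σ = 0
    rw [dd_nsmul, ← hP', ← hT', sub_self]
  obtain ⟨g, hg⟩ := hf _ hfix
  obtain ⟨T', hT1⟩ := div_pow hdiv j T
  have h1 : 2 ^ j • (P - T') = ι g := by rw [smul_sub, hT1, hg]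
  refine ⟨g, P - T', h1, ?_⟩
  rw [← sub_eq_zero, ← map_sub, icl_zero_iff]
  refine ⟨T', ⟨m + j, ?_⟩, fun σ => ?_⟩
  · rw [pow_add, mul_smul, hT1, hm]
  · change c.1 σ - dd W (P - T') σ = dd W T' σ
    rw [hP', dd_sub]
    change dd W P σ - (dd W P σ - dd W T' σ) = dd W T' σ
    abel

/-- the number of the classes modulo `2 ^ j` -/
lemma card_quot_pow {A : Type} [AddCommGroup A]
    [Finite (A ⧸ (nsmulAddMonoidHom (α := A) 2).range)] (j : ℕ) :
    ∃ S : Finset A, S.card ≤ Nat.card (A ⧸ (nsmulAddMonoidHom (α := A) 2).range) ^ j ∧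
      ∀ a : A, ∃ s ∈ S, ∃ b : A, a = s + 2 ^ j • b := by
  classical
  have hfin := Fintype.ofFinite (A ⧸ (nsmulAddMonoidHom (α := A) 2).range)
  induction j with
  | zero =>
    refine ⟨{0}, by simp, fun a => ⟨0, Finset.mem_singleton_self 0, a, ?_⟩⟩
    rw [pow_zero, one_smul, zero_add]
  | succ j ih =>
    obtain ⟨S, hS, h⟩ := ih
    refine ⟨(S ×ˢ (Finset.univ : Finset (A ⧸ (nsmulAddMonoidHom (α := A) 2).range))).image
      (fun t => t.1 + 2 ^ j • t.2.out), ?_, fun a => ?_⟩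
    · refine Finset.card_image_le.trans ?_
      rw [Finset.card_product, Finset.card_univ, ← Nat.card_eq_fintype_card, pow_succ]
      exact Nat.mul_le_mul_right _ hS
    · obtain ⟨s, hs, b, rfl⟩ := h a
      let q : A ⧸ (nsmulAddMonoidHom (α := A) 2).range := QuotientAddGroup.mk b
      have hq : QuotientAddGroup.mk q.out = q := QuotientAddGroup.out_eq' q
      have h1 : -q.out + b ∈ (nsmulAddMonoidHom (α := A) 2).range := QuotientAddGroup.eq.1 hq
      obtain ⟨b', hb'⟩ := h1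
      rw [nsmulAddMonoidHom_apply] at hb'
      refine ⟨s + 2 ^ j • q.out, Finset.mem_image.2 ⟨(s, q), Finset.mem_product.2
        ⟨hs, Finset.mem_univ _⟩, rfl⟩, b', ?_⟩
      have h2 : b = q.out + 2 • b' := by rw [hb']; abel
      rw [pow_succ, mul_smul, add_assoc, ← smul_add, ← h2]

/-- **Bounds for the orders of the subgroups of the `2 ^ ∞`-Selmer group.** -/
theorem card_inf {W : WeierstrassCurve ℚ} (hdiv : ∀ P : Pt W QB, ∃ Q, P = Q + Q)
    (hfg : AddGroup.FG W.toAffine.Point) {t : ℕ} (h2 : Finite {x : W.toAffine.Point // x + x = 0})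
    (ht : Nat.card {x : W.toAffine.Point // x + x = 0} ≤ 2 ^ t) (j : ℕ)
    (hS : Finite (ShaTor W (2 ^ j))) :
    Finite (SelInfTor W j) ∧ Nat.card (ShaTor W (2 ^ j)) ≤ Nat.card (SelInfTor W j) ∧
      Nat.card (SelInfTor W j) ≤ 2 ^ ((rk W + t) * j) * Nat.card (ShaTor W (2 ^ j)) := by
  classical
  obtain ⟨ι, hι0, hι, hf⟩ := exists_rat W
  have hq : Nat.card (W.toAffine.Point ⧸ (nsmulAddMonoidHom (α := W.toAffine.Point) 2).range) =
      2 ^ rk W * Nat.card {x : W.toAffine.Point // x + x = 0} :=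
    Pool.Agent.Y214.SX.card_quot _ hfg
  have : Nonempty {x : W.toAffine.Point // x + x = 0} := ⟨⟨0, add_zero 0⟩⟩
  have hqf : Finite (W.toAffine.Point ⧸ (nsmulAddMonoidHom (α := W.toAffine.Point) 2).range) := by
    apply Nat.finite_of_card_ne_zero
    rw [hq]
    exact mul_ne_zero (by positivity) Nat.card_pos.ne'
  obtain ⟨S, hS1, hS2⟩ := card_quot_pow (A := W.toAffine.Point) j
  have hScard : S.card ≤ 2 ^ ((rk W + t) * j) := by
    refine hS1.trans ?_
    rw [pow_mul]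
    refine Nat.pow_le_pow_left ?_ j
    rw [hq, pow_add]
    exact Nat.mul_le_mul_left _ ht
  -- the halves of the rational points
  choose q hq' using fun g : W.toAffine.Point => div_pow hdiv j (ι g)
  -- a lift of every element of `Ш[2 ^ j]`
  have hL : ∀ y : ShaTor W (2 ^ j), ∃ x : SelInfTor W j, infSha W x.1 = y.1 := by
    intro y
    obtain ⟨x, hx1, hx2⟩ := lift_sha hdiv j y.1 y.2
    exact ⟨⟨x, hx1⟩, hx2⟩
  choose l hl using hL
  -- the elements of the kernel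
  have hk0 : ∀ g : W.toAffine.Point, 2 ^ j • icl W ⟨dd W (q g), dd_mem hι (hq' g)⟩ = 0 := by
    intro g
    rw [← map_nsmul]
    have : (2 ^ j • (⟨dd W (q g), dd_mem hι (hq' g)⟩ : selInfCoc W)) = 0 := by
      refine Subtype.ext (funext fun σ => ?_)
      change 2 ^ j • dd W (q g) σ = 0
      rw [← dd_nsmul, hq' g]
      change act W σ.toAlgHom (ι g) - ι g = 0
      rw [hι, sub_self]
    rw [this, map_zero]
  let F : S × ShaTor W (2 ^ j) → SelInfTor W j := fun z =>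
    ⟨icl W ⟨dd W (q z.1.1), dd_mem hι (hq' z.1.1)⟩ + (l z.2).1, by
      rw [smul_add, hk0, (l z.2).2, add_zero]⟩
  have hF : Function.Surjective F := by
    rintro ⟨x, hx⟩
    let y : ShaTor W (2 ^ j) := ⟨infSha W x, by rw [← map_nsmul, hx, map_zero]⟩
    have h1 : infSha W (x - (l y).1) = 0 := by
      rw [map_sub, hl y, sub_self]
    have h2 : 2 ^ j • (x - (l y).1) = 0 := by
      rw [smul_sub, hx, (l y).2, sub_self]
    obtain ⟨g, Q, h, hg⟩ := ker_sha hdiv j hι hf (x - (l y).1) h2 h1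
    obtain ⟨s, hs, b, hb⟩ := hS2 g
    refine ⟨(⟨s, hs⟩, y), Subtype.ext ?_⟩
    change icl W ⟨dd W (q s), dd_mem hι (hq' s)⟩ + (l y).1 = x
    rw [← eq_sub_iff_add_eq, hg, ← sub_eq_zero, ← map_sub, icl_zero_iff]
    refine ⟨q s - Q + ι b, ⟨j, ?_⟩, fun σ => ?_⟩
    · rw [smul_add, smul_sub, hq' s, h, hb, map_add, map_nsmul]
      abel
    · change dd W (q s) σ - dd W Q σ = dd W (q s - Q + ι b) σ
      rw [dd_add, dd_sub]
      change dd W (q s) σ - dd W Q σ = (dd W (q s) σ - dd W Q σ) + (act W σ.toAlgHom (ι b) - ι b)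
      rw [hι, sub_self, add_zero]
  have hfin : Finite (SelInfTor W j) := Finite.of_surjective F hF
  refine ⟨hfin, ?_, ?_⟩
  · refine Nat.card_le_card_of_surjective
      (fun x : SelInfTor W j => (⟨infSha W x.1, by rw [← map_nsmul, x.2, map_zero]⟩ :
        ShaTor W (2 ^ j))) fun y => ⟨l y, Subtype.ext (hl y)⟩
  · refine (Nat.card_le_card_of_surjective F hF).trans ?_
    rw [Nat.card_prod]
    refine Nat.mul_le_mul_right _ ?_
    rw [Nat.card_eq_fintype_card, Fintype.card_coe]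
    exact hScard

variable {W : WeierstrassCurve ℚ} {a b c : QB}

/-- the case of a curve given by the roots of its cubic -/
theorem card_inf' (h : IsR (W.baseChange QB) a b c) (hab : a ≠ b) (hac : a ≠ c) (hbc : b ≠ c)
    (j : ℕ) (hS : Finite (ShaTor W (2 ^ j))) :
    Finite (SelInfTor W j) ∧ Nat.card (ShaTor W (2 ^ j)) ≤ Nat.card (SelInfTor W j) ∧
      Nat.card (SelInfTor W j) ≤ 2 ^ ((rk W + 2) * j) * Nat.card (ShaTor W (2 ^ j)) := by
  obtain ⟨h1, h2⟩ := two_le h hab hac hbc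
  exact card_inf (hdiv h hab hac hbc) (fg_of h hab hac hbc) h1 h2 j hS

end Pool.Agent.Q243.PR
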