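import Pool.Agent.Q243.PR.Inf
import Pool.Agent.Q243.PR.Four

/-!
# The `2 ^ ∞`-Selmer groups of `y² = x (x - A) (x - B)` and of the 2-isogenous curves
-/

set_option autoImplicit false

namespace Pool.Agent.Q243.PR

open WeierstrassCurve Pool.Agent.TH841.SH.D

open Pool.Agent.TH841.SH (IsR)

attribute [-instance] DivisionRing.toRatAlgebra

lemma inf_full {A B : ℤ} (hA : A ≠ 0) (hB : B ≠ 0) (hAB : A ≠ B) (j : ℕ)
    (hS : Finite (ShaTor (⟨0, -((A : ℚ) + B), 0, (A : ℚ) * B, 0⟩ : WeierstrassCurve ℚ) (2 ^ j))) :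
    Finite (SelInfTor ⟨0, -((A : ℚ) + B), 0, (A : ℚ) * B, 0⟩ j) ∧
      Nat.card (ShaTor (⟨0, -((A : ℚ) + B), 0, (A : ℚ) * B, 0⟩ : WeierstrassCurve ℚ) (2 ^ j)) ≤
        Nat.card (SelInfTor ⟨0, -((A : ℚ) + B), 0, (A : ℚ) * B, 0⟩ j) ∧
      Nat.card (SelInfTor ⟨0, -((A : ℚ) + B), 0, (A : ℚ) * B, 0⟩ j) ≤
        2 ^ ((rk ⟨0, -((A : ℚ) + B), 0, (A : ℚ) * B, 0⟩ + 2) * j) *
          Nat.card (ShaTor (⟨0, -((A : ℚ) + B), 0, (A : ℚ) * B, 0⟩ : WeierstrassCurve ℚ)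
            (2 ^ j)) := by
  refine card_inf' (isR_full A B) ?_ ?_ ?_ j hS
  · exact fun h => hA (by exact_mod_cast h.symm)
  · exact fun h => hB (by exact_mod_cast h.symm)
  · exact fun h => hAB (by exact_mod_cast h)

lemma inf_quot {a b : ℤ} (ha : a ≠ 0) (hb : b ≠ 0) (hab : a ≠ b) (j : ℕ)
    (hS : Finite (ShaTor (⟨0, 2 * ((a : ℚ) + b), 0, ((a : ℚ) - b) ^ 2, 0⟩ : WeierstrassCurve ℚ)
      (2 ^ j))) :
    Finite (SelInfTor ⟨0, 2 * ((a : ℚ) + b), 0, ((a : ℚ) - b) ^ 2, 0⟩ j) ∧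
      Nat.card (ShaTor (⟨0, 2 * ((a : ℚ) + b), 0, ((a : ℚ) - b) ^ 2, 0⟩ : WeierstrassCurve ℚ)
        (2 ^ j)) ≤
        Nat.card (SelInfTor ⟨0, 2 * ((a : ℚ) + b), 0, ((a : ℚ) - b) ^ 2, 0⟩ j) ∧
      Nat.card (SelInfTor ⟨0, 2 * ((a : ℚ) + b), 0, ((a : ℚ) - b) ^ 2, 0⟩ j) ≤
        2 ^ ((rk ⟨0, 2 * ((a : ℚ) + b), 0, ((a : ℚ) - b) ^ 2, 0⟩ + 2) * j) *
          Nat.card (ShaTor (⟨0, 2 * ((a : ℚ) + b), 0, ((a : ℚ) - b) ^ 2, 0⟩ :
            WeierstrassCurve ℚ) (2 ^ j)) := by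
  obtain ⟨s, hs⟩ := IsAlgClosed.exists_pow_nat_eq (a : QB) (n := 2) (by norm_num)
  obtain ⟨t, ht⟩ := IsAlgClosed.exists_pow_nat_eq (b : QB) (n := 2) (by norm_num)
  have hst : s ^ 2 ≠ t ^ 2 := by
    rw [hs, ht]
    exact fun h => hab (by exact_mod_cast h)
  have hs0 : s ≠ 0 := by
    rintro rfl
    apply ha
    have : ((a : ℤ) : QB) = 0 := by rw [← hs]; ring
    exact_mod_cast this
  have ht0 : t ≠ 0 := by
    rintro rfl
    apply hb
    have : ((b : ℤ) : QB) = 0 := by rw [← ht]; ring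
    exact_mod_cast this
  have h1 : s + t ≠ 0 := fun h => hst (by linear_combination (s - t) * h)
  have h2 : s - t ≠ 0 := fun h => hst (by linear_combination (s + t) * h)
  refine card_inf' (isR_quot a b hs ht) ?_ ?_ ?_ j hS
  · exact fun h => h1 (pow_eq_zero_iff (two_ne_zero) |>.1 (neg_eq_zero.1 h.symm))
  · exact fun h => h2 (pow_eq_zero_iff (two_ne_zero) |>.1 (neg_eq_zero.1 h.symm))
  · intro h
    have h3 : 4 * (s * t) = 0 := by linear_combination -h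
    have h4 : (4 : QB) ≠ 0 := by norm_num
    rcases mul_eq_zero.1 h3 with h5 | h5
    · exact h4 h5
    · exact mul_ne_zero hs0 ht0 h5

/-- logarithms of the orders -/
lemma log_of' {n r u R : ℕ} (h1 : u ≤ n) (h2 : n ≤ 2 ^ ((r + 2) * 1) * u) (hu : 0 < u)
    (hr : r ≤ R) {x δ l : ℝ} (hx : |Real.logb 2 u - x| ≤ δ / 2 * l)
    (hl : (R : ℝ) + 2 ≤ δ / 2 * l) : |Real.logb 2 n - x| ≤ δ * l := by
  have hu' : (0 : ℝ) < u := by exact_mod_cast hu
  have hn' : (0 : ℝ) < n := by exact_mod_cast lt_of_lt_of_le hu h1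
  have hr' : (r : ℝ) ≤ R := by exact_mod_cast hr
  have k1 : Real.logb 2 u ≤ Real.logb 2 n :=
    Real.logb_le_logb_of_le (by norm_num) hu' (by exact_mod_cast h1)
  have k2 : Real.logb 2 n ≤ (r + 2) + Real.logb 2 u := by
    have k3 : (n : ℝ) ≤ 2 ^ (r + 2) * u := by
      rw [mul_one] at h2
      exact_mod_cast h2
    have k4 := Real.logb_le_logb_of_le (b := 2) (by norm_num) hn' k3
    rw [Real.logb_mul (by positivity) hu'.ne', Real.logb_pow,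
      Real.logb_self_eq_one (by norm_num), mul_one] at k4
    push_cast at k4
    exact k4
  rw [abs_le] at hx ⊢
  constructor <;> linarith [hx.1, hx.2]

/-- bounds for the orders of the subgroups killed by `2 ^ j` -/
lemma tower_of {n1 n m1 m r R j : ℕ} (h1 : m1 ≤ n1)
    (h2 : n ≤ 2 ^ ((r + 2) * j) * m) (h3 : m ≤ 2 ^ (R * j) * m1) (hr : r ≤ R) :
    n ≤ 2 ^ ((2 * R + 2) * j) * n1 := by
  calc n ≤ 2 ^ ((r + 2) * j) * m := h2
    _ ≤ 2 ^ ((R + 2) * j) * (2 ^ (R * j) * n1) :=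
      Nat.mul_le_mul (Nat.pow_le_pow_right (by norm_num) (Nat.mul_le_mul_right _ (by omega)))
        (h3.trans (Nat.mul_le_mul_left _ h1))
    _ = 2 ^ ((2 * R + 2) * j) * n1 := by
      rw [← mul_assoc, ← pow_add]
      congr 2
      ring

/-- an isomorphism gives the same number of elements of order dividing two -/
lemma tor_of_equiv {W : WeierstrassCurve ℚ} {T : Type} [AddCommGroup T]
    (h : Nonempty (SelInf W ≃+ T)) :
    Nat.card (SelInfTor W 1) = Nat.card {x : T // x + x = 0} := by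
  obtain ⟨e⟩ := h
  refine Nat.card_congr (Equiv.subtypeEquiv e.toEquiv fun x => ?_)
  change 2 ^ 1 • x = 0 ↔ e x + e x = 0
  rw [pow_one, two_nsmul, ← map_add, map_eq_zero_iff e e.injective]

end Pool.Agent.Q243.PR
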