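import Pool.Agent.Q243.PR.Crv

/-!
# Curves whose 2-Selmer group is as small as possible; Euler's product identity
-/

set_option autoImplicit false

namespace Pool.Agent.Q243.PR

open WeierstrassCurve Pool.Agent.TH841.SH.D

open Pool.Agent.TH841.SH (IsR)

/-- the 2-Selmer group is as small as possible: it is finite, of the order of `W(ℚ)[2]` -/
def SelMin (W : WeierstrassCurve ℚ) : Prop :=
  Finite (Sel2 W) ∧ Nat.card (Sel2 W) = Nat.card {P : W.toAffine.Point // P + P = 0}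

section

attribute [-instance] DivisionRing.toRatAlgebra

/-- the roots of the cubic -/
lemma exists_isR (A B : ℤ) (h : 4 * A ^ 3 + 27 * B ^ 2 ≠ 0) : ∃ a b c : QB,
    IsR ((⟨0, 0, 0, (A : ℚ), (B : ℚ)⟩ : WeierstrassCurve ℚ).baseChange QB) a b c ∧
      a ≠ b ∧ a ≠ c ∧ b ≠ c := by
  obtain ⟨a, ha⟩ := IsAlgClosed.exists_root
    (Polynomial.X ^ 3 + Polynomial.C (A : QB) * Polynomial.X + Polynomial.C (B : QB)) (by
      have : (Polynomial.X ^ 3 + Polynomial.C (A : QB) * Polynomial.X +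
        Polynomial.C (B : QB)).degree = 3 := by compute_degree!
      rw [this]
      norm_num)
  simp only [Polynomial.IsRoot, Polynomial.eval_add, Polynomial.eval_pow, Polynomial.eval_X,
    Polynomial.eval_mul, Polynomial.eval_C] at ha
  obtain ⟨s, hs⟩ := IsAlgClosed.exists_pow_nat_eq (-3 * a ^ 2 - 4 * (A : QB)) (n := 2) (by norm_num)
  have hR : IsR ((⟨0, 0, 0, (A : ℚ), (B : ℚ)⟩ : WeierstrassCurve ℚ).baseChange QB)
      a ((-a + s) / 2) ((-a - s) / 2) := by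
    refine ⟨?_, ?_, ?_, ?_, ?_⟩
    · change algebraMap ℚ QB 0 = 0
      exact map_zero _
    · change algebraMap ℚ QB 0 = _
      rw [map_zero]
      ring
    · change algebraMap ℚ QB 0 = 0
      exact map_zero _
    · change algebraMap ℚ QB (A : ℚ) = _
      rw [map_intCast]
      linear_combination (1 / 4 : QB) * hs
    · change algebraMap ℚ QB (B : ℚ) = _
      rw [map_intCast]
      linear_combination ha - (a / 4) * hs
  refine ⟨a, (-a + s) / 2, (-a - s) / 2, hR, ?_⟩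
  have hd : ((a - (-a + s) / 2) * (a - (-a - s) / 2) * ((-a + s) / 2 - (-a - s) / 2)) ^ 2 =
      -(4 * (A : QB) ^ 3 + 27 * (B : QB) ^ 2) := by
    have e1 : ((a - (-a + s) / 2) * (a - (-a - s) / 2) * ((-a + s) / 2 - (-a - s) / 2)) ^ 2 =
        ((9 * a ^ 2 - s ^ 2) / 4) ^ 2 * s ^ 2 := by ring
    rw [e1, hs]
    have hB : (B : QB) = -(a ^ 3 + A * a) := by linear_combination ha
    rw [hB]
    ring
  have hne : (a - (-a + s) / 2) * (a - (-a - s) / 2) * ((-a + s) / 2 - (-a - s) / 2) ≠ 0 := by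
    intro h0
    rw [h0] at hd
    apply h
    have h1 : ((4 * A ^ 3 + 27 * B ^ 2 : ℤ) : QB) = 0 := by
      push_cast
      linear_combination hd
    exact_mod_cast h1
  refine ⟨fun e => hne ?_, fun e => hne ?_, fun e => hne ?_⟩
  · rw [sub_eq_zero.2 e]
    ring
  · rw [sub_eq_zero.2 e]
    ring
  · rw [sub_eq_zero.2 e]
    ring

/-- a finitely generated abelian group of rank zero is finite -/
lemma finite_of_rank {G : Type} [AddCommGroup G] (hG : AddGroup.FG G)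
    (h : Module.finrank ℤ G = 0) : Finite G := by
  have : Module.Finite ℤ G := Module.Finite.iff_addGroup_fg.mpr hG
  have h1 : Module.rank ℤ G = 0 := by
    rw [← Module.finrank_eq_rank, h, Nat.cast_zero]
  rw [rank_eq_zero_iff] at h1
  refine Module.finite_of_fg_torsion G fun x => ?_
  obtain ⟨a, ha, hx⟩ := h1 x
  exact ⟨⟨a, mem_nonZeroDivisors_of_ne_zero ha⟩, hx⟩

lemma rank_of_finite {G : Type} [AddCommGroup G] [Finite G] : Module.finrank ℤ G = 0 := by
  apply Module.finrank_eq_zero_of_rank_eq_zero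
  rw [rank_eq_zero_iff]
  intro x
  refine ⟨(addOrderOf x : ℤ), ?_, ?_⟩
  · have := (isOfFinAddOrder_of_finite x).addOrderOf_pos
    exact_mod_cast this.ne'
  · rw [natCast_zsmul]
    exact addOrderOf_nsmul_eq_zero x

/-- **The 2-Selmer group is as small as possible iff the rank and `Ш[2]` are trivial.** -/
theorem min_iff (A B : ℤ) (h : 4 * A ^ 3 + 27 * B ^ 2 ≠ 0) :
    SelMin ⟨0, 0, 0, (A : ℚ), (B : ℚ)⟩ ↔
      (Finite (⟨0, 0, 0, (A : ℚ), (B : ℚ)⟩ : WeierstrassCurve ℚ).toAffine.Point ∧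
        ∀ x : Sha ⟨0, 0, 0, (A : ℚ), (B : ℚ)⟩, 2 • x = 0 → x = 0) := by
  obtain ⟨a, b, c, hR, hab, hac, hbc⟩ := exists_isR A B h
  set W : WeierstrassCurve ℚ := ⟨0, 0, 0, (A : ℚ), (B : ℚ)⟩ with hW
  obtain ⟨t1, t2⟩ := two_le hR hab hac hbc
  have t3 : Nonempty {x : W.toAffine.Point // x + x = 0} := ⟨⟨0, add_zero 0⟩⟩
  have t4 : 0 < Nat.card {x : W.toAffine.Point // x + x = 0} := Nat.card_pos
  constructor
  · rintro ⟨h1, h2⟩
    have hfr : Finite (toSha W).range :=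
      Finite.of_surjective _ (toSha W).rangeRestrict_surjective
    have hS : Finite (ShaTor W 2) := Finite.of_equiv (toSha W).range
      (Equiv.subtypeEquivRight (fun x => toSha_range (hdiv hR hab hac hbc) x))
    obtain ⟨-, h4⟩ := card_sel (hdiv hR hab hac hbc) (fg_of hR hab hac hbc)
    have s0 : Nonempty (ShaTor W 2) := ⟨⟨0, smul_zero _⟩⟩
    have s1 : 0 < Nat.card (ShaTor W 2) := Nat.card_pos
    rw [h2] at h4
    have h5 : 2 ^ rk W * Nat.card (ShaTor W 2) = 1 := by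
      have : Nat.card {x : W.toAffine.Point // x + x = 0} * (2 ^ rk W * Nat.card (ShaTor W 2)) =
        Nat.card {x : W.toAffine.Point // x + x = 0} * 1 := by
        rw [mul_one]
        conv_rhs => rw [h4]
        ring
      exact Nat.eq_of_mul_eq_mul_left t4 this
    have h6 : 2 ^ rk W = 1 ∧ Nat.card (ShaTor W 2) = 1 :=
      ⟨Nat.dvd_one.1 ⟨_, h5.symm⟩, Nat.dvd_one.1 ⟨2 ^ rk W, by rw [mul_comm]; exact h5.symm⟩⟩
    constructor
    · refine finite_of_rank (fg_of hR hab hac hbc) ?_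
      by_contra h7
      have h8 : rk W ≠ 0 := h7
      have : 2 ^ 1 ≤ 2 ^ rk W := Nat.pow_le_pow_right (by norm_num) (Nat.one_le_iff_ne_zero.2 h8)
      omega
    · intro x hx
      have h9 := h6.2
      rw [Nat.card_eq_one_iff_unique] at h9
      obtain ⟨h10, -⟩ := h9
      have h11 : (⟨x, hx⟩ : ShaTor W 2) = ⟨0, smul_zero _⟩ := h10.elim _ _
      exact congrArg Subtype.val h11
  · rintro ⟨h1, h2⟩
    have hsub : Subsingleton (ShaTor W 2) :=
      ⟨fun x y => Subtype.ext ((h2 x.1 x.2).trans (h2 y.1 y.2).symm)⟩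
    have hne : Nonempty (ShaTor W 2) := ⟨⟨0, smul_zero _⟩⟩
    have hS : Finite (ShaTor W 2) := Finite.of_subsingleton
    have hc : Nat.card (ShaTor W 2) = 1 := Nat.card_eq_one_iff_unique.2 ⟨hsub, hne⟩
    obtain ⟨h3, h4⟩ := card_sel (hdiv hR hab hac hbc) (fg_of hR hab hac hbc)
    have hr : rk W = 0 := rank_of_finite
    rw [hc, hr, pow_zero, one_mul, mul_one] at h4
    exact ⟨h3, h4⟩

end

open Filter Topology Finset

/-- a finite form of Euler's identity -/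
lemma fin_euler (q : ℝ) (N : ℕ) :
    (∏ j ∈ range N, (1 + q ^ (j + 1))) * (∏ j ∈ range N, (1 - q ^ (j + 1))) *
      ∏ i ∈ range N, (1 - q ^ (2 * i + 1)) = ∏ j ∈ range (2 * N), (1 - q ^ (j + 1)) := by
  induction N with
  | zero => simp
  | succ N ih =>
    rw [show 2 * (N + 1) = 2 * N + 1 + 1 by ring, prod_range_succ _ (2 * N + 1),
      prod_range_succ _ (2 * N), ← ih, prod_range_succ _ N, prod_range_succ _ N,
      prod_range_succ _ N]
    have e : (1 + q ^ (N + 1)) * (1 - q ^ (N + 1)) = 1 - q ^ (2 * N + 1 + 1) := by ring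
    rw [← e]
    ring

lemma tail_le (N : ℕ) (M : ℕ) : 1 - (1 / 2 : ℝ) ^ N + (1 / 2 : ℝ) ^ (N + M) ≤
    ∏ j ∈ Ico N (N + M), (1 - (1 / 2 : ℝ) ^ (j + 1)) := by
  induction M with
  | zero => simp
  | succ M ih =>
    rw [show N + (M + 1) = N + M + 1 by ring, prod_Ico_succ_top (by omega)]
    have h1 : (0 : ℝ) ≤ 1 - (1 / 2 : ℝ) ^ (N + M + 1) := by
      have : (1 / 2 : ℝ) ^ (N + M + 1) ≤ 1 := pow_le_one₀ (by norm_num) (by norm_num)
      linarith
    have h2 := mul_le_mul_of_nonneg_right ih h1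
    refine le_trans ?_ h2
    have e1 : (1 / 2 : ℝ) ^ (N + M) = 2 * (1 / 2 : ℝ) ^ (N + M + 1) := by
      rw [pow_succ]; ring
    have h3 : (0 : ℝ) ≤ (1 / 2 : ℝ) ^ (N + M + 1) := by positivity
    have h4 : (1 / 2 : ℝ) ^ (N + M) ≤ (1 / 2 : ℝ) ^ N :=
      pow_le_pow_of_le_one (by norm_num) (by norm_num) (by omega)
    rw [e1]
    set x := (1 / 2 : ℝ) ^ (N + M + 1)
    set y := (1 / 2 : ℝ) ^ N
    nlinarith

lemma mult_R : Multipliable (fun i : ℕ => (1 : ℝ) - (1 / 2 : ℝ) ^ (2 * i + 1)) := by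
  have : Summable (fun i : ℕ => ‖-(1 / 2 : ℝ) ^ (2 * i + 1)‖) := by
    have h : Summable (fun i : ℕ => (1 / 2 : ℝ) ^ i) := summable_geometric_two
    refine Summable.of_nonneg_of_le (fun i => norm_nonneg _) (fun i => ?_) h
    rw [norm_neg, Real.norm_of_nonneg (by positivity)]
    exact pow_le_pow_of_le_one (by norm_num) (by norm_num) (by omega)
  have h := multipliable_one_add_of_summable this
  simpa [sub_eq_add_neg] using h

lemma mult_P : Multipliable (fun j : ℕ => (1 + (1 / 2 : ℝ) ^ j)⁻¹) := by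
  have : Summable (fun j : ℕ => ‖(1 + (1 / 2 : ℝ) ^ j)⁻¹ - 1‖) := by
    have h : Summable (fun i : ℕ => (1 / 2 : ℝ) ^ i) := summable_geometric_two
    refine Summable.of_nonneg_of_le (fun i => norm_nonneg _) (fun i => ?_) h
    have h0 : (0 : ℝ) < (1 / 2 : ℝ) ^ i := by positivity
    have e : (1 + (1 / 2 : ℝ) ^ i)⁻¹ - 1 = -((1 / 2 : ℝ) ^ i / (1 + (1 / 2 : ℝ) ^ i)) := by
      field_simp
      ring
    rw [e, norm_neg, Real.norm_of_nonneg (by positivity)]
    rw [div_le_iff₀ (by positivity)]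
    nlinarith
  have h := multipliable_one_add_of_summable this
  simpa using h

/-- Euler's identity at `q = 1 / 2` -/
theorem euler : ∏' i : ℕ, ((1 : ℝ) - (1 / 2 : ℝ) ^ (2 * i + 1)) =
    2 * ∏' j : ℕ, (1 + (1 / 2 : ℝ) ^ j)⁻¹ := by
  have hR := mult_R.hasProd.tendsto_prod_nat
  have hP := (mult_P.hasProd.tendsto_prod_nat).comp (tendsto_add_atTop_nat 1)
  have hT : Tendsto (fun N : ℕ => ∏ j ∈ Ico N (N + N), (1 - (1 / 2 : ℝ) ^ (j + 1))) atTop
      (𝓝 1) := by
    have h1 : Tendsto (fun N : ℕ => 1 - (1 / 2 : ℝ) ^ N) atTop (𝓝 (1 - 0)) :=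
      tendsto_const_nhds.sub (tendsto_pow_atTop_nhds_zero_of_lt_one (by norm_num) (by norm_num))
    rw [sub_zero] at h1
    refine tendsto_of_tendsto_of_tendsto_of_le_of_le h1 tendsto_const_nhds (fun N => ?_)
      (fun N => ?_)
    · have := tail_le N N
      have h3 : (0 : ℝ) ≤ (1 / 2 : ℝ) ^ (N + N) := by positivity
      change 1 - (1 / 2 : ℝ) ^ N ≤ _
      linarith
    · refine prod_le_one (fun j _ => ?_) (fun j _ => ?_)
      · have : (1 / 2 : ℝ) ^ (j + 1) ≤ 1 := pow_le_one₀ (by norm_num) (by norm_num)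
        linarith
      · have : (0 : ℝ) ≤ (1 / 2 : ℝ) ^ (j + 1) := by positivity
        linarith
  have hlim := (hP.const_mul 2).mul hT
  rw [mul_one] at hlim
  refine tendsto_nhds_unique hR (hlim.congr fun N => ?_)
  have e := fin_euler (1 / 2) N
  have e2 : ∏ j ∈ range (2 * N), (1 - (1 / 2 : ℝ) ^ (j + 1)) =
      (∏ j ∈ range N, (1 - (1 / 2 : ℝ) ^ (j + 1))) *
        ∏ j ∈ Ico N (N + N), (1 - (1 / 2 : ℝ) ^ (j + 1)) := by
    rw [prod_range_mul_prod_Ico _ (by omega), two_mul]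
  have hpos : ∏ j ∈ range N, (1 - (1 / 2 : ℝ) ^ (j + 1)) ≠ 0 := by
    refine prod_ne_zero_iff.2 fun j _ => ?_
    have : (1 / 2 : ℝ) ^ (j + 1) < 1 := pow_lt_one₀ (by norm_num) (by norm_num) (by omega)
    linarith
  have e3 : (∏ j ∈ range N, (1 + (1 / 2 : ℝ) ^ (j + 1))) *
      ∏ i ∈ range N, (1 - (1 / 2 : ℝ) ^ (2 * i + 1)) =
        ∏ j ∈ Ico N (N + N), (1 - (1 / 2 : ℝ) ^ (j + 1)) := by
    apply mul_left_cancel₀ hpos
    rw [← e2, ← e]
    ring
  have e4 : 2 * ∏ j ∈ range (N + 1), (1 + (1 / 2 : ℝ) ^ j)⁻¹ =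
      (∏ j ∈ range N, (1 + (1 / 2 : ℝ) ^ (j + 1)))⁻¹ := by
    rw [prod_range_succ', pow_zero, prod_inv_distrib]
    norm_num
    ring
  have hpos2 : ∏ j ∈ range N, (1 + (1 / 2 : ℝ) ^ (j + 1)) ≠ 0 := by
    refine prod_ne_zero_iff.2 fun j _ => ?_
    positivity
  change (2 * ∏ j ∈ range (N + 1), (1 + (1 / 2 : ℝ) ^ j)⁻¹) * _ = _
  rw [e4, ← e3, ← mul_assoc, inv_mul_cancel₀ hpos2, one_mul]

end Pool.Agent.Q243.PR
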