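import Mathlib
import Pool.Agent.TH841.SH.Grp
import Pool.Agent.TH841.SH.Tr
import Pool.Agent.Y214.SX.Rk
import Pool.Agent.H437R2.Man.MW

/-!
# The 2-Selmer group of an elliptic curve over `ℚ`

`0 → E(ℚ) / 2 E(ℚ) → Sel₂(E) → Ш(E)[2] → 0` for curves whose cubic has distinct roots over the
algebraic closure.
-/

set_option autoImplicit false

namespace Pool.Agent.Q243.PR

open WeierstrassCurve Pool.Agent.TH841.SH.D

open Pool.Agent.TH841.SH (IsR)

attribute [-instance] DivisionRing.toRatAlgebra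

/-- the algebraic numbers -/
abbrev QB : Type := AlgebraicClosure ℚ

/-- `f` is a continuous cocycle with values in `W[2]` whose classes in `H¹(ℚ_v, W)` are trivial for
all the places `v` -/
def IsSel2 (W : WeierstrassCurve ℚ) (f : Coch W) : Prop := IsShaCoc W f ∧ ∀ σ, f σ + f σ = 0

/-- the group of the Selmer cocycles -/
def sel2Coc (W : WeierstrassCurve ℚ) : AddSubgroup (Coch W) where
  carrier := {f | IsSel2 W f}
  zero_mem' := ⟨sha_zero W, fun σ => add_zero (0 : Pt W (AlgebraicClosure ℚ))⟩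
  add_mem' := by
    rintro f g ⟨a1, a2⟩ ⟨b1, b2⟩
    refine ⟨sha_add a1 b1, fun σ => ?_⟩
    change f σ + g σ + (f σ + g σ) = 0
    have : f σ + g σ + (f σ + g σ) = (f σ + f σ) + (g σ + g σ) := by abel
    rw [this, a2, b2, add_zero]
  neg_mem' := by
    rintro f ⟨a1, a2⟩
    refine ⟨sha_neg a1, fun σ => ?_⟩
    change -f σ + -f σ = 0
    have : -f σ + -f σ = -(f σ + f σ) := by abel
    rw [this, a2, neg_zero]

/-- `f` is the coboundary of a point of order dividing `2` -/
def IsCob2 (W : WeierstrassCurve ℚ) (f : Coch W) : Prop :=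
  ∃ P : Pt W (AlgebraicClosure ℚ), P + P = 0 ∧ ∀ σ : Gal ℚ, f σ = act W σ.toAlgHom P - P

/-- the group of the coboundaries of the points of order dividing `2` -/
def cob2 (W : WeierstrassCurve ℚ) : AddSubgroup (Coch W) where
  carrier := {f | IsCob2 W f}
  zero_mem' := ⟨0, add_zero 0, fun σ => by
    change (0 : Pt W (AlgebraicClosure ℚ)) = act W σ.toAlgHom 0 - 0
    rw [map_zero, sub_zero]⟩
  add_mem' := by
    rintro f g ⟨P, hP1, hP2⟩ ⟨Q, hQ1, hQ2⟩
    refine ⟨P + Q, ?_, fun σ => ?_⟩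
    · have : P + Q + (P + Q) = (P + P) + (Q + Q) := by abel
      rw [this, hP1, hQ1, add_zero]
    · change f σ + g σ = _
      rw [hP2, hQ2, map_add]
      abel
  neg_mem' := by
    rintro f ⟨P, hP1, hP2⟩
    refine ⟨-P, ?_, fun σ => ?_⟩
    · have : -P + -P = -(P + P) := by abel
      rw [this, hP1, neg_zero]
    · change -f σ = _
      rw [hP2, map_neg]
      abel

/-- the `2`-Selmer group `ker (H¹(ℚ, W[2]) → ∏ H¹(ℚ_v, W))` -/
def Sel2 (W : WeierstrassCurve ℚ) : Type := sel2Coc W ⧸ (cob2 W).addSubgroupOf (sel2Coc W)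

noncomputable instance (W : WeierstrassCurve ℚ) : AddCommGroup (Sel2 W) :=
  @QuotientAddGroup.Quotient.addCommGroup (sel2Coc W) _ ((cob2 W).addSubgroupOf (sel2Coc W))

/-- fixed points are rational -/
lemma exists_rat (W : WeierstrassCurve ℚ) : ∃ j : W.toAffine.Point →+ Pt W QB,
    Function.Injective j ∧ (∀ (σ : Gal ℚ) (P : W.toAffine.Point),
      act W σ.toAlgHom (j P) = j P) ∧
    ∀ P : Pt W QB, (∀ σ : Gal ℚ, act W σ.toAlgHom P = P) → ∃ q, j q = P :=
  Pool.Agent.TH841.SH.exists_rat W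


/-- the coboundary of a point -/
noncomputable def dd (W : WeierstrassCurve ℚ) (Q : Pt W QB) : Coch W :=
  fun σ : Gal ℚ => act W σ.toAlgHom Q - Q

/-- coboundaries are locally trivial cocycles -/
lemma cob_mem (W : WeierstrassCurve ℚ) (Q : Pt W QB) : IsShaCoc W (dd W Q) := by
  have h : dd W Q ∈ shaCoc W := by
    rw [sha_iff]
    exact ⟨⟨Pool.Agent.TH841.SH.lc_cob W Q, Pool.Agent.TH841.SH.coc_cob W Q⟩,
      (Pool.Agent.TH841.SH.evLoc_cob W Q).1, (Pool.Agent.TH841.SH.evLoc_cob W Q).2⟩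
  exact h

/-- the inclusion of the Selmer cocycles -/
def incl (W : WeierstrassCurve ℚ) : sel2Coc W →+ shaCoc W where
  toFun c := ⟨c.1, c.2.1⟩
  map_zero' := rfl
  map_add' _ _ := rfl

/-- the map to the Tate-Shafarevich group -/
noncomputable def toSha (W : WeierstrassCurve ℚ) : Sel2 W →+ Sha W :=
  QuotientAddGroup.map ((cob2 W).addSubgroupOf (sel2Coc W)) ((cob W).addSubgroupOf (shaCoc W))
    (incl W) (by
      rintro c ⟨P, -, hP2⟩
      exact ⟨P, hP2⟩)

/-- the class of a Selmer cocycle -/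
noncomputable def scl (W : WeierstrassCurve ℚ) : sel2Coc W →+ Sel2 W :=
  QuotientAddGroup.mk' ((cob2 W).addSubgroupOf (sel2Coc W))

/-- the class of a locally trivial cocycle -/
noncomputable def tcl (W : WeierstrassCurve ℚ) : shaCoc W →+ Sha W :=
  QuotientAddGroup.mk' ((cob W).addSubgroupOf (shaCoc W))

lemma scl_surj {W : WeierstrassCurve ℚ} (x : Sel2 W) : ∃ c, scl W c = x :=
  QuotientAddGroup.mk'_surjective _ x

lemma tcl_surj {W : WeierstrassCurve ℚ} (x : Sha W) : ∃ c, tcl W c = x :=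
  QuotientAddGroup.mk'_surjective _ x

lemma toSha_scl {W : WeierstrassCurve ℚ} (c : sel2Coc W) : toSha W (scl W c) = tcl W (incl W c) :=
  rfl

lemma scl_zero_iff {W : WeierstrassCurve ℚ} (c : sel2Coc W) : scl W c = 0 ↔ IsCob2 W c.1 := by
  have h1 : scl W c = 0 ↔ c ∈ (QuotientAddGroup.mk' ((cob2 W).addSubgroupOf (sel2Coc W))).ker :=
    Iff.rfl
  rw [h1, QuotientAddGroup.ker_mk', AddSubgroup.mem_addSubgroupOf]
  rfl

lemma tcl_zero_iff {W : WeierstrassCurve ℚ} (c : shaCoc W) : tcl W c = 0 ↔ IsCob W c.1 := by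
  have h1 : tcl W c = 0 ↔ c ∈ (QuotientAddGroup.mk' ((cob W).addSubgroupOf (shaCoc W))).ker :=
    Iff.rfl
  rw [h1, QuotientAddGroup.ker_mk', AddSubgroup.mem_addSubgroupOf]
  rfl

/-- the image is the 2-torsion -/
lemma toSha_range {W : WeierstrassCurve ℚ} (hdiv : ∀ P : Pt W QB, ∃ Q, P = Q + Q) (x : Sha W) :
    x ∈ (toSha W).range ↔ 2 • x = 0 := by
  constructor
  · rintro ⟨y, rfl⟩
    obtain ⟨c, rfl⟩ := scl_surj y
    rw [two_nsmul, ← map_add, ← map_add, toSha_scl]
    have h : c + c = 0 := Subtype.ext (funext fun σ => c.2.2 σ)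
    rw [h, map_zero, map_zero]
  · intro h
    obtain ⟨c, rfl⟩ := tcl_surj x
    rw [two_nsmul, ← map_add, tcl_zero_iff] at h
    obtain ⟨P, hP⟩ := h
    obtain ⟨Q, rfl⟩ := hdiv P
    have hc' : IsShaCoc W (c.1 - dd W Q) :=
      (shaCoc W).sub_mem c.2 (cob_mem W Q)
    have h2 : IsSel2 W (c.1 - dd W Q) := by
      refine ⟨hc', fun σ => ?_⟩
      change (c.1 σ - (act W σ.toAlgHom Q - Q)) + (c.1 σ - (act W σ.toAlgHom Q - Q)) = 0
      have h3 : c.1 σ + c.1 σ = act W σ.toAlgHom (Q + Q) - (Q + Q) := hP σ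
      have h4 : (c.1 σ - (act W σ.toAlgHom Q - Q)) + (c.1 σ - (act W σ.toAlgHom Q - Q)) =
        (c.1 σ + c.1 σ) - ((act W σ.toAlgHom Q + act W σ.toAlgHom Q) - (Q + Q)) := by abel
      rw [h4, h3, map_add, sub_self]
    refine ⟨scl W ⟨_, h2⟩, ?_⟩
    rw [toSha_scl]
    have h5 : tcl W (incl W ⟨_, h2⟩ - c) = 0 := by
      rw [tcl_zero_iff]
      refine ⟨-Q, fun σ => ?_⟩
      change (c.1 σ - (act W σ.toAlgHom Q - Q)) - c.1 σ = _
      rw [map_neg]
      abel
    rw [map_sub, sub_eq_zero] at h5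
    exact h5

/-- the kernel of the map to the Tate-Shafarevich group is `E(ℚ) / 2 E(ℚ)` -/
theorem card_ker {W : WeierstrassCurve ℚ} (hdiv : ∀ P : Pt W QB, ∃ Q, P = Q + Q) :
    Nat.card (toSha W).ker =
      Nat.card (W.toAffine.Point ⧸ (nsmulAddMonoidHom (α := W.toAffine.Point) 2).range) := by
  obtain ⟨j, hj, hjσ, hjf⟩ := exists_rat W
  choose q hq using fun g => hdiv (j g)
  have hsel : ∀ g : W.toAffine.Point, IsSel2 W (dd W (q g)) := by
    intro g
    refine ⟨cob_mem W _, fun σ => ?_⟩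
    change act W σ.toAlgHom (q g) - q g + (act W σ.toAlgHom (q g) - q g) = 0
    have e3 : act W σ.toAlgHom (q g) - q g + (act W σ.toAlgHom (q g) - q g) =
      (act W σ.toAlgHom (q g) + act W σ.toAlgHom (q g)) - (q g + q g) := by abel
    rw [e3, ← map_add, ← hq, hjσ, sub_self]
  -- two halves of the same point give the same class
  have hsame : ∀ (c c' : sel2Coc W) (Q Q' : Pt W QB),
      (∀ σ : Gal ℚ, c.1 σ = act W σ.toAlgHom Q - Q) →
      (∀ σ : Gal ℚ, c'.1 σ = act W σ.toAlgHom Q' - Q') → Q + Q = Q' + Q' → scl W c = scl W c' := by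
    intro c c' Q Q' h1 h2 hQ
    rw [← sub_eq_zero, ← map_sub, scl_zero_iff]
    refine ⟨Q - Q', ?_, fun σ => ?_⟩
    · have : (Q - Q') + (Q - Q') = (Q + Q) - (Q' + Q') := by abel
      rw [this, hQ, sub_self]
    · change c.1 σ - c'.1 σ = _
      rw [h1, h2, map_sub]
      abel
  let δ : W.toAffine.Point →+ Sel2 W :=
    AddMonoidHom.mk' (fun g => scl W ⟨_, hsel g⟩) (fun g g' => by
      rw [← map_add]
      refine hsame _ _ (q (g + g')) (q g + q g') (fun σ => rfl) (fun σ => ?_) ?_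
      · change (act W σ.toAlgHom (q g) - q g) + (act W σ.toAlgHom (q g') - q g') = _
        rw [map_add]
        abel
      · rw [← hq, map_add, hq g, hq g']
        abel)
  have hδ : ∀ g, δ g = scl W ⟨_, hsel g⟩ := fun g => rfl
  have hrange : δ.range = (toSha W).ker := by
    ext x
    constructor
    · rintro ⟨g, rfl⟩
      rw [AddMonoidHom.mem_ker, hδ, toSha_scl, tcl_zero_iff]
      exact ⟨q g, fun σ => rfl⟩
    · intro hx
      obtain ⟨c, rfl⟩ := scl_surj x
      rw [AddMonoidHom.mem_ker, toSha_scl, tcl_zero_iff] at hx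
      obtain ⟨P, hP⟩ := hx
      have hP' : ∀ σ : Gal ℚ, c.1 σ = act W σ.toAlgHom P - P := hP
      have hfix : ∀ σ : Gal ℚ, act W σ.toAlgHom (P + P) = P + P := by
        intro σ
        have e1 : c.1 σ + c.1 σ = 0 := c.2.2 σ
        rw [hP' σ] at e1
        have e2 : act W σ.toAlgHom P - P + (act W σ.toAlgHom P - P) =
          (act W σ.toAlgHom P + act W σ.toAlgHom P) - (P + P) := by abel
        rw [e2, sub_eq_zero] at e1
        rw [map_add]
        exact e1
      obtain ⟨g, hg⟩ := hjf _ hfix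
      refine ⟨g, ?_⟩
      rw [hδ]
      exact hsame _ _ (q g) P (fun σ => rfl) hP' (by rw [← hq, hg])
  have hker : δ.ker = (nsmulAddMonoidHom (α := W.toAffine.Point) 2).range := by
    ext g
    rw [AddMonoidHom.mem_ker, hδ, scl_zero_iff]
    constructor
    · rintro ⟨P, hP1, hP2⟩
      have hP2' : ∀ σ : Gal ℚ, act W σ.toAlgHom (q g) - q g = act W σ.toAlgHom P - P := hP2
      have hfix : ∀ σ : Gal ℚ, act W σ.toAlgHom (q g - P) = q g - P := by
        intro σ
        rw [map_sub]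
        have := hP2' σ
        rw [sub_eq_sub_iff_sub_eq_sub] at this
        exact this
      obtain ⟨g', hg'⟩ := hjf _ hfix
      refine ⟨g', ?_⟩
      apply hj
      rw [nsmulAddMonoidHom_apply, two_nsmul, map_add, hg', hq]
      have : q g - P + (q g - P) = (q g + q g) - (P + P) := by abel
      rw [this, hP1, sub_zero]
    · rintro ⟨g', rfl⟩
      refine ⟨q ((nsmulAddMonoidHom 2) g') - j g', ?_, fun σ => ?_⟩
      · have : (q ((nsmulAddMonoidHom 2) g') - j g') + (q ((nsmulAddMonoidHom 2) g') - j g') =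
          (q ((nsmulAddMonoidHom 2) g') + q ((nsmulAddMonoidHom 2) g')) - (j g' + j g') := by abel
        rw [this, ← hq, nsmulAddMonoidHom_apply, two_nsmul, map_add, sub_self]
      · change act W σ.toAlgHom (q ((nsmulAddMonoidHom 2) g')) - q ((nsmulAddMonoidHom 2) g') = _
        rw [map_sub, hjσ]
        abel
  rw [← hrange, ← hker]
  exact (Nat.card_congr (QuotientAddGroup.quotientKerEquivRange δ).toEquiv).symm

/-- **The exact sequence.** -/
theorem card_sel {W : WeierstrassCurve ℚ} (hdiv : ∀ P : Pt W QB, ∃ Q, P = Q + Q)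
    (hfg : AddGroup.FG W.toAffine.Point) [Finite {x : W.toAffine.Point // x + x = 0}]
    [Finite (ShaTor W 2)] :
    Finite (Sel2 W) ∧ Nat.card (Sel2 W) =
      2 ^ rk W * Nat.card {x : W.toAffine.Point // x + x = 0} * Nat.card (ShaTor W 2) := by
  have e1 : Nat.card (ShaTor W 2) = Nat.card (toSha W).range :=
    Nat.card_congr (Equiv.subtypeEquivRight (fun x => (toSha_range hdiv x).symm))
  have hfr : Finite (toSha W).range :=
    Finite.of_equiv (ShaTor W 2) (Equiv.subtypeEquivRight (fun x => (toSha_range hdiv x).symm))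
  have hk : Nat.card (toSha W).ker =
      2 ^ rk W * Nat.card {x : W.toAffine.Point // x + x = 0} := by
    rw [card_ker hdiv, Pool.Agent.Y214.SX.card_quot _ hfg]
    rfl
  have hkf : Finite (toSha W).ker := by
    apply Nat.finite_of_card_ne_zero
    rw [hk]
    have : Nonempty {x : W.toAffine.Point // x + x = 0} := ⟨⟨0, add_zero 0⟩⟩
    exact mul_ne_zero (by positivity) Nat.card_pos.ne'
  have e2 : Nat.card (Sel2 W) = Nat.card (toSha W).range * Nat.card (toSha W).ker := by
    rw [AddSubgroup.card_eq_card_quotient_mul_card_addSubgroup (toSha W).ker]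
    congr 1
    exact Nat.card_congr (QuotientAddGroup.quotientKerEquivRange (toSha W)).toEquiv
  refine ⟨?_, ?_⟩
  · apply Nat.finite_of_card_ne_zero
    rw [e2]
    exact mul_ne_zero Nat.card_pos.ne' Nat.card_pos.ne'
  · rw [e2, hk, ← e1]
    ring

end Pool.Agent.Q243.PR
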