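import Pool.Agent.Y703.XL.InfB

/-!
# The 3-Selmer group of `y² + D y = x³` over a number field containing the third roots of unity

It is as small as possible (of the order of `E_D(K)[3]`) if and only if the `3^∞`-Selmer group is
trivial.
-/

set_option autoImplicit false
set_option linter.unusedSectionVars false

open scoped Classical

namespace Pool.Agent.Q243.PR3

open WeierstrassCurve NumberField
open Pool.Agent.TH841.SH.D (Pt act Gal Coch)
open Pool.Agent.TH841.NF.D (IsShaCoc shaCoc)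
open Pool.Agent.Y703.XL.Inf

variable {K : Type} [Field K] [NumberField K] {D z : K}

/-- the continuous cocycles with values in the points of order dividing three that are
coboundaries of points of the curve at all places -/
def sel3Coc (D : K) : AddSubgroup (Coch (E1 D)) where
  carrier := {f | IsShaCoc (E1 D) f ∧ ∀ σ, 3 • f σ = 0}
  zero_mem' := ⟨(shaCoc (E1 D)).zero_mem, fun σ => smul_zero _⟩
  add_mem' := fun {f g} hf hg => ⟨(shaCoc (E1 D)).add_mem hf.1 hg.1, fun σ => by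
    change 3 • (f σ + g σ) = 0
    rw [smul_add, hf.2, hg.2, add_zero]⟩
  neg_mem' := fun {f} hf => ⟨(shaCoc (E1 D)).neg_mem hf.1, fun σ => by
    change 3 • -(f σ) = 0
    rw [smul_neg, hf.2, neg_zero]⟩

/-- the coboundaries of the points of order dividing three -/
def cob3 (D : K) : AddSubgroup (Coch (E1 D)) where
  carrier := {f | ∃ P : Pt (E1 D) (AlgebraicClosure K), 3 • P = 0 ∧
    ∀ σ : Gal K, f σ = act (E1 D) σ.toAlgHom P - P}
  zero_mem' := ⟨0, smul_zero _, fun σ => by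
    change (0 : Pt (E1 D) (AlgebraicClosure K)) = _
    rw [map_zero, sub_zero]⟩
  add_mem' := fun {f g} hf hg => by
    obtain ⟨P, hn, hP⟩ := hf
    obtain ⟨Q, hm, hQ⟩ := hg
    refine ⟨P + Q, by rw [smul_add, hn, hm, add_zero], fun σ => ?_⟩
    change f σ + g σ = _
    rw [hP, hQ, map_add]
    abel
  neg_mem' := fun {f} hf => by
    obtain ⟨P, hn, hP⟩ := hf
    refine ⟨-P, by rw [smul_neg, hn, neg_zero], fun σ => ?_⟩
    change -f σ = _
    rw [hP, map_neg]
    abel

/-- the 3-Selmer group `ker (H¹(K, E_D[3]) → ∏ H¹(K_v, E_D))` -/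
def Sel3 (D : K) : Type := sel3Coc D ⧸ (cob3 D).addSubgroupOf (sel3Coc D)

/-- the group law -/
noncomputable instance Sel3.group (D : K) : AddCommGroup (Sel3 D) :=
  @QuotientAddGroup.Quotient.addCommGroup (sel3Coc D) _ ((cob3 D).addSubgroupOf (sel3Coc D))

/-- the class of a cocycle -/
noncomputable def cl3 (D : K) : sel3Coc D →+ Sel3 D :=
  QuotientAddGroup.mk' ((cob3 D).addSubgroupOf (sel3Coc D))

lemma cl3_surj (x : Sel3 D) : ∃ c, cl3 D c = x := QuotientAddGroup.mk'_surjective _ x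

lemma cl3_zero_iff (c : sel3Coc D) : cl3 D c = 0 ↔ c.1 ∈ cob3 D := by
  have h1 : cl3 D c = 0 ↔ c ∈ (QuotientAddGroup.mk' ((cob3 D).addSubgroupOf (sel3Coc D))).ker :=
    Iff.rfl
  rw [h1, QuotientAddGroup.ker_mk', AddSubgroup.mem_addSubgroupOf]

lemma sel3_le : sel3Coc D ≤ selCoc D := fun _ hf => ⟨hf.1, fun σ => ⟨1, by rw [pow_one, hf.2]⟩⟩

/-- the map to the `3^∞`-Selmer group -/
noncomputable def mm (D : K) : Sel3 D →+ SelInf D :=
  QuotientAddGroup.map ((cob3 D).addSubgroupOf (sel3Coc D)) ((cobInf D).addSubgroupOf (selCoc D))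
    (AddSubgroup.inclusion sel3_le) (by
      rintro c ⟨P, hP1, hP2⟩
      exact ⟨P, ⟨1, by rw [pow_one, hP1]⟩, hP2⟩)

lemma mm_cl3 (c : sel3Coc D) : mm D (cl3 D c) = cls (AddSubgroup.inclusion sel3_le c) := rfl

lemma cbf_sub (P Q : Pt (E1 D) (AlgebraicClosure K)) : cbf (P - Q) = cbf P - cbf Q := by
  funext σ
  change act (E1 D) σ.toAlgHom (P - Q) - (P - Q) =
    (act (E1 D) σ.toAlgHom P - P) - (act (E1 D) σ.toAlgHom Q - Q)
  rw [map_sub]
  abel

lemma div3 (hD : D ≠ 0) (hz : z ^ 2 + z + 1 = 0) (P : Pt (E1 D) (AlgebraicClosure K)) :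
    ∃ Q, 3 • Q = P := by
  obtain ⟨Q, rfl⟩ := ph_surj hD hz P
  obtain ⟨R, rfl⟩ := ph_surj hD hz Q
  exact ⟨-R, by rw [ph_ph hD hz, smul_neg]⟩

lemma fix_of_ker (hD : D ≠ 0) (hz : z ^ 2 + z + 1 = 0) {R : Pt (E1 D) (AlgebraicClosure K)}
    (h : ph hz R = 0) (σ : Gal K) : act (E1 D) σ.toAlgHom R = R := ker_fix hD hz h σ

lemma three_of_ker (hD : D ≠ 0) (hz : z ^ 2 + z + 1 = 0) {R : Pt (E1 D) (AlgebraicClosure K)}
    (h : ph hz R = 0) : 3 • R = 0 := by
  have h1 := ph_ph hD hz R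
  rw [h, map_zero] at h1
  exact neg_eq_zero.1 h1.symm

/-- fixed points are rational -/
lemma exists_rat (W : WeierstrassCurve K) : ∃ j : W.toAffine.Point →+ Pt W (AlgebraicClosure K),
    Function.Injective j ∧ (∀ (σ : Gal K) (P : W.toAffine.Point),
      act W σ.toAlgHom (j P) = j P) ∧
    ∀ P : Pt W (AlgebraicClosure K), (∀ σ : Gal K, act W σ.toAlgHom P = P) → ∃ q, j q = P := by
  suffices H : ∀ W' : WeierstrassCurve K, W' = W.baseChange K →
      ∃ j : W'.toAffine.Point →+ Pt W (AlgebraicClosure K), Function.Injective j ∧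
      (∀ (σ : Gal K) (P : W'.toAffine.Point), act W σ.toAlgHom (j P) = j P) ∧
      ∀ P : Pt W (AlgebraicClosure K), (∀ σ : Gal K, act W σ.toAlgHom P = P) → ∃ q, j q = P by
    apply H W
    apply WeierstrassCurve.ext <;> simp [WeierstrassCurve.baseChange]
  rintro W' rfl
  refine ⟨act W (Algebra.ofId K (AlgebraicClosure K)), ?_, ?_, ?_⟩
  · exact Affine.Point.map_injective _
  · intro σ P
    rcases P with _ | ⟨x, y, h⟩
    · rfl
    · change (Affine.Point.some _ _ _ : (W.baseChange (AlgebraicClosure K)).toAffine.Point) =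
        Affine.Point.some _ _ _
      rw [Affine.Point.some.injEq]
      exact ⟨σ.commutes x, σ.commutes y⟩
  · intro P hP
    rcases P with _ | ⟨X, Y, h⟩
    · exact ⟨0, rfl⟩
    · have hfix : ∀ σ : Gal K, σ X = X ∧ σ Y = Y := by
        intro σ
        have h1 : (Affine.Point.some _ _ _ : (W.baseChange (AlgebraicClosure K)).toAffine.Point) =
          Affine.Point.some _ _ _ := hP σ
        rw [Affine.Point.some.injEq] at h1
        exact h1
      obtain ⟨x, hx⟩ := fix_mem X (fun τ => (hfix τ).1)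
      obtain ⟨y, hy⟩ := fix_mem Y (fun τ => (hfix τ).2)
      subst hx hy
      have hn : (W.baseChange K).toAffine.Nonsingular x y :=
        (Affine.baseChange_nonsingular W (f := Algebra.ofId K (AlgebraicClosure K))
          (Algebra.ofId K (AlgebraicClosure K)).injective x y).mp h
      exact ⟨.some x y hn, rfl⟩

/-- the rational points of order dividing three -/
lemma card_tor (hD : D ≠ 0) (hz : z ^ 2 + z + 1 = 0) (hc : ∀ t : K, t ^ 3 ≠ D) :
    Nat.card {P : (E1 D).toAffine.Point // 3 • P = 0} =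
      Nat.card {R : Pt (E1 D) (AlgebraicClosure K) // ph hz R = 0} := by
  obtain ⟨j, hj, hjσ, hjf⟩ := exists_rat (E1 D)
  refine Nat.card_congr (Equiv.ofBijective (fun P => ⟨j P.1, ?_⟩) ⟨?_, ?_⟩)
  · refine fix_tor hD hz hc (n := 1) (fun σ => hjσ σ P.1) ?_
    rw [pow_one, ← map_nsmul, P.2, map_zero]
  · intro P Q h
    exact Subtype.ext (hj (congrArg Subtype.val h))
  · rintro ⟨R, hR⟩
    obtain ⟨q, rfl⟩ := hjf R (fix_of_ker hD hz hR)
    refine ⟨⟨q, hj ?_⟩, rfl⟩
    rw [map_nsmul, map_zero]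
    exact three_of_ker hD hz hR

/-- the kernel of `√-3` is finite -/
lemma fin_ker (hD : D ≠ 0) (hz : z ^ 2 + z + 1 = 0) :
    Finite {R : Pt (E1 D) (AlgebraicClosure K) // ph hz R = 0} := by
  have h1 : {R : Pt (E1 D) (AlgebraicClosure K) | ph hz R = 0} ⊆
      ({0} ∪ {R | ∃ h, R = pp 0 0 h}) ∪ {R | ∃ h, R = pp 0 (-algebraMap K _ D) h} := by
    intro R hR
    rcases (ph_ker hD hz R).1 hR with h | ⟨y, hn, rfl⟩
    · exact Or.inl (Or.inl h)
    · have h2 : y ^ 2 + algebraMap K _ D * y = 0 := by rw [(eqn _ _).1 hn.1]; ring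
      have h3 : y * (y + algebraMap K _ D) = 0 := by linear_combination h2
      rcases mul_eq_zero.1 h3 with h4 | h4
      · subst h4
        exact Or.inl (Or.inr ⟨hn, rfl⟩)
      · have h5 : y = -algebraMap K _ D := eq_neg_of_add_eq_zero_left h4
        subst h5
        exact Or.inr ⟨hn, rfl⟩
  have h2 : ({R : Pt (E1 D) (AlgebraicClosure K) | ph hz R = 0}).Finite := by
    refine Set.Finite.subset (Set.Finite.union (Set.Finite.union (Set.finite_singleton _) ?_) ?_) h1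
    · refine Set.Subsingleton.finite ?_
      rintro _ ⟨h, rfl⟩ _ ⟨h', rfl⟩
      rfl
    · refine Set.Subsingleton.finite ?_
      rintro _ ⟨h, rfl⟩ _ ⟨h', rfl⟩
      rfl
  exact h2.to_subtype

/-- the kernel of the map to the `3^∞`-Selmer group -/
lemma card_kerm (hD : D ≠ 0) (hz : z ^ 2 + z + 1 = 0) (hc : ∀ t : K, t ^ 3 ≠ D) :
    Nat.card (mm D).ker = Nat.card {R : Pt (E1 D) (AlgebraicClosure K) // ph hz R = 0} := by
  choose q hq using fun R => div3 hD hz R
  have hmem : ∀ R : {R : Pt (E1 D) (AlgebraicClosure K) // ph hz R = 0},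
      (cbf (q R.1) : Coch (E1 D)) ∈ sel3Coc D := by
    intro R
    refine ⟨cbf_sha _, fun σ => ?_⟩
    change 3 • (act (E1 D) σ.toAlgHom (q R.1) - q R.1) = 0
    rw [smul_sub, ← map_nsmul, hq, fix_of_ker hD hz R.2, sub_self]
  have hker : ∀ R : {R : Pt (E1 D) (AlgebraicClosure K) // ph hz R = 0},
      cl3 D ⟨_, hmem R⟩ ∈ (mm D).ker := by
    intro R
    rw [AddMonoidHom.mem_ker, mm_cl3, cls_eq_zero]
    refine ⟨q R.1, ⟨2, ?_⟩, fun σ => rfl⟩
    have e : (3 : ℕ) ^ 2 = 3 * 3 := by norm_num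
    rw [e, mul_smul, hq, three_of_ker hD hz R.2]
  refine (Nat.card_congr (Equiv.ofBijective (fun R => (⟨_, hker R⟩ : (mm D).ker)) ⟨?_, ?_⟩)).symm
  · intro R R' h
    have h1 : cl3 D ⟨_, hmem R⟩ = cl3 D ⟨_, hmem R'⟩ := congrArg Subtype.val h
    rw [← sub_eq_zero, ← map_sub, cl3_zero_iff] at h1
    obtain ⟨S, hS, hS2⟩ := h1
    have h2 : ∀ σ : Gal K, act (E1 D) σ.toAlgHom (q R.1 - q R'.1 - S) = q R.1 - q R'.1 - S := by
      intro σ
      rw [← sub_eq_zero]
      change cbf (q R.1 - q R'.1 - S) σ = 0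
      rw [cbf_sub, cbf_sub]
      have h3 : cbf (q R.1) σ - cbf (q R'.1) σ = cbf S σ := hS2 σ
      change cbf (q R.1) σ - cbf (q R'.1) σ - cbf S σ = 0
      rw [h3, sub_self]
    have h4 : 3 ^ 2 • (q R.1 - q R'.1 - S) = 0 := by
      have e : (3 : ℕ) ^ 2 = 3 * 3 := by norm_num
      have e2 : 3 • (q R.1 - q R'.1 - S) = R.1 - R'.1 := by
        rw [smul_sub, smul_sub, hq, hq, hS, sub_zero]
      rw [e, mul_smul, e2, smul_sub, three_of_ker hD hz R.2, three_of_ker hD hz R'.2, sub_zero]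
    have h5 := three_of_ker hD hz (fix_tor hD hz hc h2 h4)
    rw [smul_sub, smul_sub, hq, hq, hS, sub_zero, sub_eq_zero] at h5
    exact Subtype.ext h5
  · rintro ⟨x, hx⟩
    obtain ⟨c, rfl⟩ := cl3_surj x
    have hx' := hx
    rw [AddMonoidHom.mem_ker, mm_cl3, cls_eq_zero] at hx'
    obtain ⟨P, ⟨n, hn⟩, hP⟩ := hx'
    have hP' : ∀ σ : Gal K, c.1 σ = act (E1 D) σ.toAlgHom P - P := hP
    have h1 : ∀ σ : Gal K, act (E1 D) σ.toAlgHom (3 • P) = 3 • P := by
      intro σ
      rw [map_nsmul, ← sub_eq_zero, ← smul_sub, ← hP' σ]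
      exact c.2.2 σ
    have h2 : 3 ^ n • (3 • P) = 0 := by
      rw [← mul_smul, mul_comm, mul_smul, hn, smul_zero]
    have h3 := fix_tor hD hz hc h1 h2
    refine ⟨⟨3 • P, h3⟩, Subtype.ext ?_⟩
    change cl3 D ⟨_, hmem ⟨3 • P, h3⟩⟩ = cl3 D c
    rw [← sub_eq_zero, ← map_sub, cl3_zero_iff]
    refine ⟨q (3 • P) - P, by rw [smul_sub, hq, sub_self], fun σ => ?_⟩
    change cbf (q (3 • P)) σ - c.1 σ = cbf (q (3 • P) - P) σ
    rw [cbf_sub, hP' σ]
    rfl

/-- the image contains the elements killed by three -/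
lemma mm_range (hD : D ≠ 0) (hz : z ^ 2 + z + 1 = 0) (x : SelInf D) (hx : 3 • x = 0) :
    ∃ y, mm D y = x := by
  obtain ⟨f, rfl⟩ : ∃ f : selCoc D, cls f = x := QuotientAddGroup.mk_surjective x
  have hx' : cls (3 • f) = 0 := hx
  rw [cls_eq_zero] at hx'
  obtain ⟨P, ⟨n, hn⟩, hP⟩ := hx'
  obtain ⟨Q, rfl⟩ := div3 hD hz P
  have hm : f.1 - cbf Q ∈ sel3Coc D := by
    refine ⟨(shaCoc (E1 D)).sub_mem f.2.1 (cbf_sha Q), fun σ => ?_⟩
    change 3 • (f.1 σ - (act (E1 D) σ.toAlgHom Q - Q)) = 0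
    have hP' : 3 • f.1 σ = act (E1 D) σ.toAlgHom (3 • Q) - 3 • Q := hP σ
    rw [smul_sub, hP', map_nsmul, smul_sub, sub_self]
  refine ⟨cl3 D ⟨_, hm⟩, ?_⟩
  rw [mm_cl3, ← sub_eq_zero]
  have h2 : cls (AddSubgroup.inclusion sel3_le ⟨f.1 - cbf Q, hm⟩) - cls f =
      cls (AddSubgroup.inclusion sel3_le ⟨f.1 - cbf Q, hm⟩ - f) := rfl
  rw [h2, cls_eq_zero]
  have h3 : (AddSubgroup.inclusion sel3_le ⟨f.1 - cbf Q, hm⟩ - f).1 = -cbf Q := by
    change f.1 - cbf Q - f.1 = -cbf Q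
    abel
  rw [h3]
  refine (cobInf D).neg_mem ⟨Q, ⟨n + 1, ?_⟩, fun σ => rfl⟩
  rw [pow_succ, mul_smul, hn]

/-- **The 3-Selmer group is as small as possible iff the `3^∞`-Selmer group is trivial.** -/
theorem min_iff (hD : D ≠ 0) (hz : z ^ 2 + z + 1 = 0) (hc : ∀ t : K, t ^ 3 ≠ D) :
    (Finite (Sel3 D) ∧
      Nat.card (Sel3 D) = Nat.card {P : (E1 D).toAffine.Point // 3 • P = 0}) ↔
      ∀ x : SelInf D, x = 0 := by
  have hfk := fin_ker (K := K) hD hz
  have hne : Nonempty {R : Pt (E1 D) (AlgebraicClosure K) // ph hz R = 0} := ⟨⟨0, map_zero _⟩⟩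
  have hpos : 0 < Nat.card {R : Pt (E1 D) (AlgebraicClosure K) // ph hz R = 0} := Nat.card_pos
  constructor
  · rintro ⟨hf, h⟩
    rw [card_tor hD hz hc, ← card_kerm hD hz hc] at h
    have h1 : (mm D).ker = ⊤ := AddSubgroup.eq_top_of_card_eq _ h.symm
    have h2 : ∀ y, mm D y = 0 := fun y => by
      have : y ∈ (mm D).ker := by rw [h1]; exact AddSubgroup.mem_top y
      exact this
    refine (sel_triv hD hz).1 ?_
    rw [Set.ncard_eq_one]
    refine ⟨0, Set.eq_singleton_iff_unique_mem.2 ⟨?_, fun x hx => ?_⟩⟩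
    · rw [← th_range hD hz]
      exact (th hD hz).range.zero_mem
    · rw [← th_range hD hz] at hx
      obtain ⟨f, rfl⟩ := hx
      obtain ⟨y, hy⟩ := mm_range hD hz (th hD hz f) (by
        rw [← map_nsmul]
        have : (3 • f : Sg (D := D) hz) = 0 := by
          refine Subtype.ext (funext fun σ => ?_)
          change 3 • f.1 σ = 0
          exact three_of_ker hD hz (f.2.2 σ)
        rw [this, map_zero])
      rw [← hy, h2]
  · intro h
    have h1 : (mm D).ker = ⊤ := by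
      rw [eq_top_iff]
      intro y _
      rw [AddMonoidHom.mem_ker]
      exact h _
    have h2 : Nat.card (Sel3 D) = Nat.card (mm D).ker := by
      rw [h1]
      exact (Nat.card_congr AddSubgroup.topEquiv.toEquiv).symm
    rw [card_kerm hD hz hc] at h2
    refine ⟨Nat.finite_of_card_ne_zero (by rw [h2]; exact hpos.ne'), ?_⟩
    rw [h2, card_tor hD hz hc]

/-- the endomorphism `√-3` of the `3^∞`-Selmer group -/
noncomputable def phi (hz : z ^ 2 + z + 1 = 0) : SelInf D →+ SelInf D :=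
  QuotientAddGroup.map ((cobInf D).addSubgroupOf (selCoc D)) ((cobInf D).addSubgroupOf (selCoc D))
    (AddMonoidHom.mk' (fun f : selCoc D => (⟨fun σ => ph hz (f.1 σ), ph_sel hz f.2⟩ : selCoc D))
      (fun f g => Subtype.ext (funext fun σ => map_add (ph hz) (f.1 σ) (g.1 σ)))) (by
      rintro f ⟨P, ⟨n, hn⟩, hP⟩
      refine ⟨ph hz P, ⟨n, by rw [← map_nsmul, hn, map_zero]⟩, fun σ => ?_⟩
      have hP' : f.1 σ = act (E1 D) σ.toAlgHom P - P := hP σ
      change ph hz (f.1 σ) = _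
      rw [hP', map_sub, act_ph])

lemma phi_cls (hz : z ^ 2 + z + 1 = 0) (f : selCoc D) :
    phi hz (cls f) = cls (⟨fun σ => ph hz (f.1 σ), ph_sel hz f.2⟩ : selCoc D) := rfl

lemma phi_ker (hz : z ^ 2 + z + 1 = 0) (x : SelInf D) : phi hz x = 0 ↔ x ∈ killed z D := by
  constructor
  · intro h
    obtain ⟨f, rfl⟩ : ∃ f : selCoc D, cls f = x := QuotientAddGroup.mk_surjective x
    rw [phi_cls, cls_eq_zero] at h
    refine ⟨f, rfl, ?_⟩
    rw [rot_coch hz]
    exact h
  · rintro ⟨f, rfl, h⟩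
    rw [rot_coch hz] at h
    rw [phi_cls, cls_eq_zero]
    exact h

lemma phi_phi (hD : D ≠ 0) (hz : z ^ 2 + z + 1 = 0) (x : SelInf D) :
    phi hz (phi hz x) = -(3 • x) := by
  obtain ⟨f, rfl⟩ : ∃ f : selCoc D, cls f = x := QuotientAddGroup.mk_surjective x
  rw [phi_cls, phi_cls]
  have h : -(3 • cls f) = cls (-(3 • f)) := rfl
  rw [h]
  congr 1
  exact Subtype.ext (funext fun σ => ph_ph hD hz (f.1 σ))

/-- the elements killed by three -/
lemma card_three (hD : D ≠ 0) (hz : z ^ 2 + z + 1 = 0) {r : ℕ} (hr : (killed z D).ncard = 3 ^ r) :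
    {x : SelInf D | 3 • x = 0}.Finite ∧ {x : SelInf D | 3 • x = 0}.ncard ≤ 9 ^ r := by
  have hfin : (killed z D).Finite := Set.finite_of_ncard_ne_zero (by rw [hr]; positivity)
  -- choice of preimages
  let l : SelInf D → SelInf D := fun y => if h : ∃ x, phi hz x = y then h.choose else 0
  have hl : ∀ x, phi hz (l (phi hz x)) = phi hz x := by
    intro x
    have h : ∃ x', phi hz x' = phi hz x := ⟨x, rfl⟩
    change phi hz (dite _ _ _) = _
    rw [dif_pos h]
    exact h.choose_spec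
  have hsub : {x : SelInf D | 3 • x = 0} ⊆
      (fun t : SelInf D × SelInf D => t.1 + l t.2) '' (killed z D ×ˢ killed z D) := by
    intro x hx
    have h1 : phi hz (phi hz x) = 0 := by
      rw [phi_phi hD hz, neg_eq_zero]
      exact hx
    refine ⟨(x - l (phi hz x), phi hz x), ⟨?_, (phi_ker hz _).1 h1⟩, sub_add_cancel _ _⟩
    rw [← phi_ker hz, map_sub, hl, sub_self]
  have hfp : (killed z D ×ˢ killed z D).Finite := hfin.prod hfin
  refine ⟨(hfp.image _).subset hsub, (Set.ncard_le_ncard hsub (hfp.image _)).trans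
    ((Set.ncard_image_le hfp).trans ?_)⟩
  rw [Set.ncard_prod, hr, ← mul_pow]
  norm_num

/-- **An upper bound for the order of the 3-Selmer group.** -/
theorem sel3_le_of (hD : D ≠ 0) (hz : z ^ 2 + z + 1 = 0) (hc : ∀ t : K, t ^ 3 ≠ D) {r : ℕ}
    (hr : (killed z D).ncard = 3 ^ r) : Finite (Sel3 D) ∧
      Nat.card (Sel3 D) ≤ 9 ^ r * Nat.card {P : (E1 D).toAffine.Point // 3 • P = 0} := by
  obtain ⟨h1, h2⟩ := card_three hD hz hr
  have hfk := fin_ker (K := K) hD hz
  have hne : Nonempty {R : Pt (E1 D) (AlgebraicClosure K) // ph hz R = 0} := ⟨⟨0, map_zero _⟩⟩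
  have hpos : 0 < Nat.card {R : Pt (E1 D) (AlgebraicClosure K) // ph hz R = 0} := Nat.card_pos
  have hsub : ((mm D).range : Set (SelInf D)) ⊆ {x : SelInf D | 3 • x = 0} := by
    rintro _ ⟨y, rfl⟩
    obtain ⟨c, rfl⟩ := cl3_surj y
    change 3 • mm D (cl3 D c) = 0
    rw [← map_nsmul, ← map_nsmul]
    have : (3 • c : sel3Coc D) = 0 := Subtype.ext (funext fun σ => c.2.2 σ)
    rw [this, map_zero, map_zero]
  have h3 : Nat.card (mm D).range ≤ 9 ^ r := (Set.ncard_le_ncard hsub h1).trans h2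
  have h4 : Finite (mm D).range := (h1.subset hsub).to_subtype
  have e : Nat.card (Sel3 D) = Nat.card (mm D).range * Nat.card (mm D).ker := by
    rw [AddSubgroup.card_eq_card_quotient_mul_card_addSubgroup (mm D).ker]
    congr 1
    exact Nat.card_congr (QuotientAddGroup.quotientKerEquivRange (mm D)).toEquiv
  rw [card_tor hD hz hc]
  rw [card_kerm hD hz hc] at e
  refine ⟨Nat.finite_of_card_ne_zero ?_, ?_⟩
  · rw [e]
    exact mul_ne_zero Nat.card_pos.ne' hpos.ne'
  · rw [e]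
    exact Nat.mul_le_mul_right _ h3

/-- the number of the rational points of order dividing three -/
lemma tor_le (hD : D ≠ 0) (hz : z ^ 2 + z + 1 = 0) (hc : ∀ t : K, t ^ 3 ≠ D) :
    Nat.card {P : (E1 D).toAffine.Point // 3 • P = 0} ≤ 3 := by
  rw [card_tor hD hz hc]
  have h1 : {R : Pt (E1 D) (AlgebraicClosure K) | ph hz R = 0} ⊆
      ({0} ∪ {R | ∃ h, R = pp 0 0 h}) ∪ {R | ∃ h, R = pp 0 (-algebraMap K _ D) h} := by
    intro R hR
    rcases (ph_ker hD hz R).1 hR with h | ⟨y, hn, rfl⟩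
    · exact Or.inl (Or.inl h)
    · have h2 : y ^ 2 + algebraMap K _ D * y = 0 := by rw [(eqn _ _).1 hn.1]; ring
      have h3 : y * (y + algebraMap K _ D) = 0 := by linear_combination h2
      rcases mul_eq_zero.1 h3 with h4 | h4
      · subst h4
        exact Or.inl (Or.inr ⟨hn, rfl⟩)
      · have h5 : y = -algebraMap K _ D := eq_neg_of_add_eq_zero_left h4
        subst h5
        exact Or.inr ⟨hn, rfl⟩
  have s1 : ({R : Pt (E1 D) (AlgebraicClosure K) | ∃ h, R = pp 0 0 h}).Subsingleton := by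
    rintro _ ⟨h, rfl⟩ _ ⟨h', rfl⟩
    rfl
  have s2 : ({R : Pt (E1 D) (AlgebraicClosure K) |
      ∃ h, R = pp 0 (-algebraMap K _ D) h}).Subsingleton := by
    rintro _ ⟨h, rfl⟩ _ ⟨h', rfl⟩
    rfl
  have h2 : ({R : Pt (E1 D) (AlgebraicClosure K) | ph hz R = 0}).ncard ≤ 3 := by
    refine (Set.ncard_le_ncard h1 (((Set.finite_singleton _).union s1.finite).union
      s2.finite)).trans ((Set.ncard_union_le _ _).trans ?_)
    have h3 := Set.ncard_union_le ({0} : Set (Pt (E1 D) (AlgebraicClosure K)))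
      {R | ∃ h, R = pp 0 0 h}
    have h4 := s1.finite
    have h5 : ({R : Pt (E1 D) (AlgebraicClosure K) | ∃ h, R = pp 0 0 h}).ncard ≤ 1 :=
      (Set.ncard_le_one s1.finite).2 fun a ha b hb => s1 ha hb
    have h6 : ({R : Pt (E1 D) (AlgebraicClosure K) |
        ∃ h, R = pp 0 (-algebraMap K _ D) h}).ncard ≤ 1 :=
      (Set.ncard_le_one s2.finite).2 fun a ha b hb => s2 ha hb
    rw [Set.ncard_singleton] at h3
    omega
  exact h2

end Pool.Agent.Q243.PR3
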